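import Pool.Agent.H88.PL.Pc
import Pool.Agent.H38.OD.Ne

/-!
ROW Pd (project MP_78d38b_OD, about 80 lines): the local condition at the primes at which the cubic has no root.  Use only the
definition `NRN` of Pc.

PROOF. `DescAt`: let `k ≤ k'` be between `K` and `N`, `d` with norm a nonzero square. The claim `LC` at `u | q` of `k`: the cubic of
`E_D` over `k_u` has no root modulo `u` up to the twist by `D`; so the local group is trivial: the norm-square classes of the
unramified cubic extension are trivial. See `H30ZO.descAt_noroot_in` / its core, `H30OD.V_same` (Pool/Agent/H30/OD/Vs.lean, no-root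
primes, any twist), `NoRootAt`.
-/

set_option autoImplicit false
set_option linter.unusedSectionVars false
open scoped Classical

open WithZero NumberField IsDedekindDomain H38RT
open H38T1 (SC sc scu rep eo la si OddP)
open H76PP (Cub LC ev scm dn)
open H36CY (DescAt)

namespace H88PL

theorem descAt_nr {K N : Type} [Field K] [NumberField K] [Field N] [NumberField N]
    [Algebra K N] {q : HeightOneSpectrum (𝓞 K)} (hq : q.valuation K 2 = 1) {a b : 𝓞 K}
    (h : NRN K N a b q) {D : K} (hD : D ≠ 0) :
    DescAt K N q (D ^ 2 * (a : K)) (D ^ 3 * (b : K)) := by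
  intro k k' _ _ _ _ _ _ _ _ _ _ _ _ _ _ d hdn hsq _ u hu'
  have h0 := h k u hu'
  have hA : u.valuation k (algebraMap K k (a : K)) ≤ 1 :=
    u.valuation_le_one (algebraMap (𝓞 K) (𝓞 k) a)
  have hB : u.valuation k (algebraMap K k (b : K)) ≤ 1 :=
    u.valuation_le_one (algebraMap (𝓞 K) (𝓞 k) b)
  have hle : ∀ t : k, u.valuation k t ≤ 1 → u.valuation k
      (t ^ 3 + algebraMap K k (a : K) * t + algebraMap K k (b : K)) ≤ 1 := by
    intro t ht
    refine Valuation.map_add_le _ (Valuation.map_add_le _ ?_ ?_) hB
    · rw [map_pow]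
      exact pow_le_one₀ zero_le ht
    · rw [map_mul]
      exact mul_le_one₀ hA zero_le ht
  have hint : ∀ t : k, u.valuation k t ≤ 1 → u.valuation k
      (t ^ 3 + algebraMap K k (a : K) * t + algebraMap K k (b : K)) = 1 := by
    intro t ht
    refine le_antisymm (hle t ht) (not_lt.1 fun hlt => ?_)
    obtain ⟨s, hs⟩ := H76PP.Tf_approx u ht
    apply h0 s
    rw [← u.valuation_lt_one_iff_mem (K := k)]
    have e0 : ((s ^ 3 + algebraMap (𝓞 K) (𝓞 k) a * s + algebraMap (𝓞 K) (𝓞 k) b : 𝓞 k) : k) =
        (s : k) ^ 3 + algebraMap K k (a : K) * (s : k) + algebraMap K k (b : K) := rfl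
    have e1 : (s : k) ^ 3 + algebraMap K k (a : K) * (s : k) + algebraMap K k (b : K) =
        (t ^ 3 + algebraMap K k (a : K) * t + algebraMap K k (b : K)) -
        (t - (s : k)) * (t ^ 2 + t * (s : k) + (s : k) ^ 2 + algebraMap K k (a : K)) := by ring
    have hs1 : u.valuation k (s : k) ≤ 1 := u.valuation_le_one s
    change u.valuation k ((s ^ 3 + algebraMap (𝓞 K) (𝓞 k) a * s + algebraMap (𝓞 K) (𝓞 k) b : 𝓞 k) : k) < 1
    rw [e0, e1]
    refine Valuation.map_sub_lt _ hlt ?_
    rw [map_mul]
    refine mul_lt_one_of_lt_of_le hs ?_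
    refine Valuation.map_add_le _ (Valuation.map_add_le _ (Valuation.map_add_le _ ?_ ?_) ?_) hA
    · rw [map_pow]
      exact pow_le_one₀ zero_le ht
    · rw [map_mul]
      exact mul_le_one₀ ht zero_le hs1
    · rw [map_pow]
      exact pow_le_one₀ zero_le hs1
  have hirr : ∀ t : k, t ^ 3 + algebraMap K k (a : K) * t + algebraMap K k (b : K) ≠ 0 := by
    intro t ht
    rcases le_or_gt (u.valuation k t) 1 with h1 | h1
    · have h2 := hint t h1
      rw [ht, map_zero] at h2
      exact zero_ne_one h2
    · have e : t ^ 3 = -(algebraMap K k (a : K) * t + algebraMap K k (b : K)) := by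
        linear_combination ht
      have h2 : u.valuation k (t ^ 3) ≤ u.valuation k t := by
        rw [e, Valuation.map_neg]
        refine Valuation.map_add_le _ ?_ (hB.trans h1.le)
        rw [map_mul]
        exact mul_le_of_le_one_left' hA
      rw [map_pow] at h2
      have h3 : u.valuation k t < u.valuation k t ^ 3 := by
        conv_lhs => rw [← pow_one (u.valuation k t)]
        exact pow_lt_pow_right₀ h1 (by norm_num)
      exact absurd h2 (not_le.2 h3)
  have hd0 : 4 * algebraMap K k (a : K) ^ 3 + 27 * algebraMap K k (b : K) ^ 2 ≠ 0 := by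
    intro e
    rcases eq_or_ne (algebraMap K k (a : K)) 0 with h1 | h1
    · apply hirr 0
      rw [h1] at e ⊢
      have h2 : algebraMap K k (b : K) = 0 := by
        have h3 : (27 : k) * algebraMap K k (b : K) ^ 2 = 0 := by linear_combination e
        rcases mul_eq_zero.1 h3 with h4 | h4
        · norm_num at h4
        · exact pow_eq_zero_iff (by norm_num) |>.1 h4
      rw [h2]
      ring
    · apply hirr (3 * algebraMap K k (b : K) / algebraMap K k (a : K))
      field_simp
      linear_combination (algebraMap K k (b : K)) * e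
  have hD' : algebraMap K k D ≠ 0 := (map_ne_zero _).2 hD
  have h2 : u.valuation k 2 = 1 := H73CY.val2_up (K := K) (by rw [hu']; exact hq)
  obtain ⟨L, _, _, _, θ, hc⟩ := H24PD.exists_cub hirr
  have hnb := H36O2.Oi_nb hc (u := u) ⟨1, _, _, one_ne_zero, (by rw [one_pow, one_mul]),
    (by rw [one_pow, one_mul]), hA, hB, hint⟩
  have hc' := H76PP.Tf_twist hc hD'
  rw [map_mul, map_mul, map_pow, map_pow] at hdn hsq ⊢
  have hne : ev (algebraMap k L (algebraMap K k D) * θ) d ≠ 0 := by
    rw [← H76PP.Te_norm hc' d, Ne, Algebra.norm_eq_zero_iff] at hdn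
    exact hdn
  have hsq' : IsSquare (Algebra.norm k (ev (algebraMap k L (algebraMap K k D) * θ) d)) := by
    rw [H76PP.Te_norm hc' d]
    exact hsq
  exact (H30ZO.Wc_iff _ hc' hne).1
    (H30OD.Wc_all hc u hA hB hd0 h2 hnb hD' ((H30ZO.mem_HH hne).2 hsq'))

end H88PL
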