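import Pool.Agent.H88.OD.Fe
import Pool.Agent.H30.OR.Tl

/-!
Project MP_78d38b_OD: the parity of the two-Selmer rank of quadratic twists (statement (P') with signs).
-/

set_option autoImplicit false
set_option linter.unusedSectionVars false
open scoped Classical

open WithZero NumberField IsDedekindDomain H38RT
open H38T1 (SC sc scu rep eo la si OddP)
open H76PP (Cub LC ev scm dn)
open H88OD

namespace H88PL

/-- The two-Selmer rank of `E_D` over `K` is even. -/
def Ev {K : Type} [Field K] [NumberField K] (a b D : K) : Prop :=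
  ∃ k : ℕ, selCard K (D ^ 2 * a) (D ^ 3 * b) = 4 ^ k

/-- **(P')** The change of the parity. -/
theorem par_sgn {K L : Type} [Field K] [NumberField K] [Field L] [NumberField L] [Algebra K L]
    {a b : K} {θ : L} (S : Ext K K L a b θ) {D0 D : K} {Sg : Finset (HeightOneSpectrum (𝓞 K))}
    (hok : S.Ok D0 Sg) (h3 : ∀ v : HeightOneSpectrum (𝓞 K), v ∉ Sg → v.valuation K 3 = 1)
    (hD : D ≠ 0) (hsq : ∀ v ∈ Sg, IsSquare (algebraMap K (v.adicCompletion K) (D / D0))) :
    (Ev a b D0 ↔ Ev a b D) ↔ Even (Nat.card {s : K →+* ℝ // s (D / D0) < 0}) :=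
  H30OR.par_sgn S hok h3 hD hsq

end H88PL
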