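import Pool.Agent.H88.PL.Pe
import Pool.Agent.H88.PL.Pd
import Pool.Agent.H88.PL.Ps
import Pool.Agent.H88.ZR.Fj

/-!
Project MP_78d38b_OD: the exact criterion, with arbitrary conditions at the real places.
-/

set_option autoImplicit false
set_option linter.unusedSectionVars false
open scoped Classical

open WithZero NumberField IsDedekindDomain H38RT
open H38T1 (SC sc scu rep eo la si OddP)
open H76PP (Cub LC ev scm dn SelTriv Tf_twist)
open H30ZO (Tv Wc RealAt)
open H26OD (Rich Zs Pk dd3)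
open H36CY (Stb DescAt)
open H88OD

namespace H88PL

variable {K N : Type} [Field K] [NumberField K] [Field N] [NumberField N] [Algebra K N]

/-- The two-primary parts are trivial over all number fields between `K` and `N`. -/
def TvN (K N : Type) [Field K] [NumberField K] [Field N] [NumberField N] [Algebra K N]
    (a b D : K) : Prop :=
  ∀ (M : Type) [Field M] [NumberField M] [Algebra K M] [Algebra M N] [IsScalarTower K M N],
    Tv M (algebraMap K M (D ^ 2 * a)) (algebraMap K M (D ^ 3 * b))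

private theorem pf_ne {a b : 𝓞 K} (hsq : ¬ IsSquare (dd3 (a : K) (b : K))) :
    4 * (a : K) ^ 3 + 27 * (b : K) ^ 2 ≠ 0 := by
  intro h
  apply hsq
  unfold dd3
  rw [h, neg_zero]
  exact ⟨0, (mul_zero 0).symm⟩

theorem ev_of_TvN {a b : 𝓞 K} (hir : ∀ t : K, t ^ 3 + (a : K) * t + (b : K) ≠ 0)
    (hsq : ¬ IsSquare (dd3 (a : K) (b : K))) {D : K} (hD : D ≠ 0)
    (h : TvN K N (a : K) (b : K) D) : Ev (a : K) (b : K) D := by
  refine ⟨0, ?_⟩
  rw [pow_zero]
  exact selCard_of_Tv (fun v => v.valuation_le_one a) (fun v => v.valuation_le_one b) hir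
    (pf_ne hsq) hsq hD (h K)

/-- A finite set of primes which contains the bad ones of all curves. -/
private theorem pf_set {ι : Type} [Fintype ι] {a b : ι → 𝓞 K}
    (hir : ∀ (j : ι) (t : K), t ^ 3 + (a j : K) * t + (b j : K) ≠ 0)
    (hsq : ∀ j, ¬ IsSquare (dd3 (a j : K) (b j : K))) {D0 : K} (hD0 : D0 ≠ 0)
    (Sg : Finset (HeightOneSpectrum (𝓞 K))) :
    ∃ (p0 : ∀ j, Pk K K (a j : K) (b j : K)) (Sg1 : Finset (HeightOneSpectrum (𝓞 K))),
      Sg ⊆ Sg1 ∧ (∀ j, (p0 j).S.Ok D0 Sg1) ∧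
      (∀ v : HeightOneSpectrum (𝓞 K), v ∉ Sg1 → v.valuation K 3 = 1) ∧
      ∀ V : HeightOneSpectrum (𝓞 N), dn K V ∉ Sg1 → ¬ H73P2.Ram K V := by
  have hoddK : Odd (Module.finrank K K) := by
    rw [Module.finrank_self]
    exact odd_one
  have p0 : ∀ j, Pk K K (a j : K) (b j : K) := fun j =>
    (H26OD.exists_pk hoddK (a j) (b j) (hir j) (hsq j)).some
  have f3 := H38RT.fin_bad (K := K) (x := 3) three_ne_zero
  obtain ⟨Sr, hSr⟩ : ∃ Sr : Finset (HeightOneSpectrum (𝓞 K)), ∀ V : HeightOneSpectrum (𝓞 N),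
      H73P2.Ram K V → dn K V ∈ Sr := by
    refine ⟨((H30PN.ram_fin K N).image (dn K)).toFinset, fun V hV => ?_⟩
    rw [Set.Finite.mem_toFinset]
    exact ⟨V, hV, rfl⟩
  obtain ⟨Sg1, hle, hok⟩ := H26OD.ok_all p0 hD0 (Sg ∪ (f3.toFinset ∪ Sr))
  refine ⟨p0, Sg1, fun v hv => hle (Finset.mem_union_left _ hv), hok, fun v hv => ?_,
    fun V hV hR => ?_⟩
  · by_contra hcon
    apply hv
    apply hle
    refine Finset.mem_union_right _ (Finset.mem_union_left _ ?_)
    rw [Set.Finite.mem_toFinset]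
    exact hcon
  · exact hV (hle (Finset.mem_union_right _ (Finset.mem_union_right _ (hSr V hR))))

/-- If all ranks are odd, they become even after a twist by an element which is negative at `s0`. -/
theorem real_R [IsGalois K N] {ι : Type} [Fintype ι] {a b : ι → 𝓞 K}
    (hir : ∀ (j : ι) (t : K), t ^ 3 + (a j : K) * t + (b j : K) ≠ 0)
    (hind : ∀ I : Finset ι, I.Nonempty →
      ¬ IsSquare (algebraMap K N (∏ j ∈ I, dd3 (a j : K) (b j : K))))
    {D0 : K} (hD0 : D0 ≠ 0) (hno : ∀ j, ¬ Ev (a j : K) (b j : K) D0) (s0 : K →+* ℝ)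
    (hdesc : ∀ j v, DescAt K N v (D0 ^ 2 * (a j : K)) (D0 ^ 3 * (b j : K)))
    (Sg : Finset (HeightOneSpectrum (𝓞 K))) :
    ∃ δ : K, δ ≠ 0 ∧ (∀ u ∈ Sg, IsSquare (algebraMap K (u.adicCompletion K) δ)) ∧
      (∀ s : K →+* ℝ, s ≠ s0 → 0 < s δ) ∧ (∀ j, Ev (a j : K) (b j : K) (D0 * δ)) ∧
      ∀ j v, DescAt K N v ((D0 * δ) ^ 2 * (a j : K)) ((D0 * δ) ^ 3 * (b j : K)) := by
  have hsq : ∀ j, ¬ IsSquare (algebraMap K N (dd3 (a j : K) (b j : K))) := by
    intro j h
    apply hind {j} (Finset.singleton_nonempty j)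
    rw [Finset.prod_singleton]
    exact h
  have hsqK : ∀ j, ¬ IsSquare (dd3 (a j : K) (b j : K)) := fun j h => hsq j (h.map (algebraMap K N))
  obtain ⟨p0, Sg1, hle, hok, h3, hram⟩ := pf_set (N := N) hir hsqK hD0 Sg
  obtain ⟨δ, h1, h2, hneg, hpos, hout⟩ := exists_sign (N := N) a b hir hind s0 Sg1
  have hD1 : D0 * δ ≠ 0 := mul_ne_zero hD0 h1
  have e : D0 * δ / D0 = δ := mul_div_cancel_left₀ _ hD0
  refine ⟨δ, h1, fun u hu => h2 u (hle hu), hpos, fun j => ?_, fun j v => ?_⟩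
  · have h4 := par_sgn (p0 j).S (hok j) h3 hD1 (fun v hv => by rw [e]; exact h2 v hv)
    rw [e] at h4
    have h5 : Nat.card {s : K →+* ℝ // s δ < 0} = 1 := by
      rw [Nat.card_eq_one_iff_unique]
      refine ⟨⟨fun x y => Subtype.ext ?_⟩, ⟨⟨s0, hneg⟩⟩⟩
      have h6 : ∀ z : {s : K →+* ℝ // s δ < 0}, z.1 = s0 := by
        intro z
        by_contra hz
        exact absurd (hpos z.1 hz) (not_lt.2 z.2.le)
      rw [h6 x, h6 y]
    rw [h5] at h4
    by_contra hcon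
    exact Nat.not_even_one (h4.1 ⟨fun h => absurd h (hno j), fun h => absurd h hcon⟩)
  · rcases hout v with h4 | ⟨h4, h5⟩ | h4
    · exact H38OD.descAt_zs h4 _ _
    · exact descAt_nr h4 (h5 j) hD1
    · by_cases hv : v ∈ Sg1
      · obtain ⟨r, hr⟩ := h2 v hv
        have h6 := H30ZO.descAt_twist h1 (by rw [hr, sq]) (hdesc j v)
        have e1 : δ ^ 2 * (D0 ^ 2 * (a j : K)) = (D0 * δ) ^ 2 * (a j : K) := by ring
        have e2 : δ ^ 3 * (D0 ^ 3 * (b j : K)) = (D0 * δ) ^ 3 * (b j : K) := by ring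
        rwa [e1, e2] at h6
      · rcases h4 with ⟨r, hr⟩ | h4
        · have h6 := H30ZO.descAt_twist h1 (by rw [hr, sq]) (hdesc j v)
          have e1 : δ ^ 2 * (D0 ^ 2 * (a j : K)) = (D0 * δ) ^ 2 * (a j : K) := by ring
          have e2 : δ ^ 3 * (D0 ^ 3 * (b j : K)) = (D0 * δ) ^ 3 * (b j : K) := by ring
          rwa [e1, e2] at h6
        · refine H38OD.descAt_good_tw ((hok j).two v hv) (fun V hV => ?_)
            (v.valuation_le_one (a j)) (v.valuation_le_one (b j)) ((hok j).dis v hv) hD1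
            (by rw [map_mul, h4, (hok j).val v hv, mul_one])
            (H26OD.noroot_N (hir j) (hsq j))
          exact hram V (by rw [hV]; exact hv)

/-- The converse. -/
theorem exists_S0 [IsGalois K N] {ι : Type} [Fintype ι] {a b : ι → 𝓞 K}
    (hir : ∀ (j : ι) (t : K), t ^ 3 + (a j : K) * t + (b j : K) ≠ 0)
    (hsq : ∀ j, ¬ IsSquare (algebraMap K N (dd3 (a j : K) (b j : K))))
    {D0 : K} (hD0 : D0 ≠ 0) (R : Set (K →+* ℝ)) :
    ∃ S0 : Finset (HeightOneSpectrum (𝓞 K)), ∀ D : K, D ≠ 0 →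
      (∀ v ∈ S0, IsSquare (algebraMap K (v.adicCompletion K) (D / D0))) →
      (∀ s : K →+* ℝ, s ∉ R → 0 < s (D / D0)) →
      (∀ j, TvN K N (a j : K) (b j : K) D) →
      (∀ j, RealAt K N (a j : K) (b j : K) ∧
        ∀ v, DescAt K N v (D0 ^ 2 * (a j : K)) (D0 ^ 3 * (b j : K))) ∧
      ((∀ j, Ev (a j : K) (b j : K) D0) ∨ R.Nonempty ∧ ∀ j, ¬ Ev (a j : K) (b j : K) D0) := by
  have hsqK : ∀ j, ¬ IsSquare (dd3 (a j : K) (b j : K)) := fun j h => hsq j (h.map (algebraMap K N))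
  obtain ⟨p0, Sg1, -, hok, h3, hram⟩ := pf_set (N := N) hir hsqK hD0 ∅
  refine ⟨Sg1, fun D hD hS hR htv => ⟨fun j => ?_, ?_⟩⟩
  · obtain ⟨h1, h2⟩ := H38OD.desc_of_all (N := N) (fun v => v.valuation_le_one (a j))
      (fun v => v.valuation_le_one (b j)) (pf_ne (hsqK j)) hD fun M _ => htv j M
    refine ⟨h2, fun v => ?_⟩
    by_cases hv : v ∈ Sg1
    · obtain ⟨r, hr⟩ := hS v hv
      have h4 := H30ZO.descAt_twist (D := D0 / D) (r := r⁻¹) (div_ne_zero hD0 hD) (by
        rw [← inv_div, map_inv₀, hr, sq, mul_inv]) (h1 v)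
      have e1 : (D0 / D) ^ 2 * (D ^ 2 * (a j : K)) = D0 ^ 2 * (a j : K) := by field_simp
      have e2 : (D0 / D) ^ 3 * (D ^ 3 * (b j : K)) = D0 ^ 3 * (b j : K) := by field_simp
      rwa [e1, e2] at h4
    · refine H38OD.descAt_good_tw ((hok j).two v hv) (fun V hV => ?_)
        (v.valuation_le_one (a j)) (v.valuation_le_one (b j)) ((hok j).dis v hv) hD0
        ((hok j).val v hv) (H26OD.noroot_N (hir j) (hsq j))
      exact hram V (by rw [hV]; exact hv)
  · have hpar : ∀ j, Ev (a j : K) (b j : K) D0 ↔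
        Even (Nat.card {s : K →+* ℝ // s (D / D0) < 0}) := by
      intro j
      have h4 := par_sgn (p0 j).S (hok j) h3 hD hS
      have h5 := ev_of_TvN (hir j) (hsqK j) hD (htv j)
      rw [← h4]
      exact ⟨fun h => ⟨fun _ => h5, fun _ => h⟩, fun h => h.2 h5⟩
    by_cases hev : Even (Nat.card {s : K →+* ℝ // s (D / D0) < 0})
    · exact Or.inl fun j => (hpar j).2 hev
    · refine Or.inr ⟨?_, fun j h => hev ((hpar j).1 h)⟩
      by_contra hemp
      apply hev
      have : IsEmpty {s : K →+* ℝ // s (D / D0) < 0} := by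
        refine ⟨fun z => ?_⟩
        exact absurd (hR z.1 fun h => hemp ⟨z.1, h⟩) (not_lt.2 z.2.le)
      rw [Nat.card_of_isEmpty]
      exact ⟨0, rfl⟩

end H88PL
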