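import Pool.Agent.H30.OD.Nb2
import Pool.Agent.H88.OD.Ha

/-!
Project MP_78d38b_OD: the lower bound for the relaxed group, for primes with any number of places and without the conditions at a
set `Q` of real places (`F = K`; version of Pool/Agent/H30/OR/Cd.lean).
-/

set_option autoImplicit false
set_option linter.unusedSectionVars false
open scoped Classical

open WithZero NumberField IsDedekindDomain H38RT
open H38T1 (SC sc scu rep eo la si Pri OddP tp unif)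
open H76PP (Cub LC ev scm dn)
open H76PP H88OD H30ZO H30OD

namespace H88PL

theorem card_twR {k L : Type} [Field k] [NumberField k] [Field L] [NumberField L] [Algebra k L]
    {a b : k} {θ : L} (h : Cub k L a b θ)
    (ha : ∀ v : HeightOneSpectrum (𝓞 k), v.valuation k a ≤ 1)
    (hb : ∀ v : HeightOneSpectrum (𝓞 k), v.valuation k b ≤ 1)
    (hD : 4 * a ^ 3 + 27 * b ^ 2 ≠ 0) {E : k} (hE : E ≠ 0)
    {Sg T : Finset (HeightOneSpectrum (𝓞 k))} (hd : Disjoint Sg T)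
    (h2 : ∀ v : HeightOneSpectrum (𝓞 k), v.valuation k 2 < 1 → v ∈ Sg)
    {m : HeightOneSpectrum (𝓞 k) → ℕ} (hT : ∀ v ∈ T, H30ZO.nb k L v = m v + 1)
    {Q : Finset (k →+* ℝ)} (hQ : ∀ s ∈ Q, nr k L s = 3) {W : AddSubgroup (SC L)}
    (hW : ∀ c, c ∈ W ↔ c ∈ HH k L ∧
      (∀ v ∈ Sg, Wc (algebraMap k (v.adicCompletion k)) (E ^ 2 * a) (E ^ 3 * b)
        (algebraMap k L E * θ) c) ∧
      ∀ s : k →+* ℝ, s ∉ Q → Wc s (E ^ 2 * a) (E ^ 3 * b) (algebraMap k L E * θ) c) :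
    W.relIndex (HH k L) ≠ 0 ∧
      2 ^ ((∑ v ∈ T, m v) + Q.card) * W.relIndex (HH k L) ≤
        Nat.card ↥(H24TD.US L {w : HeightOneSpectrum (𝓞 L) | dn k w ∈ Sg ∪ T} ⊓ HH k L) ∧
      Finite ↥(H24TD.US L {w : HeightOneSpectrum (𝓞 L) | dn k w ∈ Sg ∪ T} ⊓ HH k L) := by
  have hDE := H76OD.Lt_dne hE hD
  have hE2 := Tf_twist h hE
  have hWv : ∀ v : HeightOneSpectrum (𝓞 k), ∃ W : AddSubgroup (SC L), ∀ c, c ∈ W ↔
      c ∈ HH k L ∧ Wc (algebraMap k (v.adicCompletion k)) (E ^ 2 * a) (E ^ 3 * b)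
        (algebraMap k L E * θ) c := by
    intro v
    have _ := H36CY.char_zero v
    refine exists_WW hE2 _ ?_ (H24PD.inf_fin v _ _)
    intro e
    apply hDE
    apply (algebraMap k (v.adicCompletion k)).injective
    rw [map_zero, map_add, map_mul, map_mul, map_pow, map_pow, map_ofNat, map_ofNat]
    exact e
  choose Wf hWf using hWv
  have hWs : ∀ s : k →+* ℝ, ∃ W : AddSubgroup (SC L), ∀ c, c ∈ W ↔
      c ∈ HH k L ∧ Wc s (E ^ 2 * a) (E ^ 3 * b) (algebraMap k L E * θ) c := by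
    intro s
    refine exists_WW hE2 s ?_ (H24PD.inf_real _ _)
    intro e
    apply hDE
    apply s.injective
    rw [map_zero, map_add, map_mul, map_mul, map_pow, map_pow, map_ofNat, map_ofNat]
    exact e
  choose Wr hWr using hWs
  obtain ⟨X, hX⟩ : ∃ X : AddSubgroup (SC L),
      X = H24TD.US L {w : HeightOneSpectrum (𝓞 L) | dn k w ∈ Sg ∪ T} ⊓ HH k L := ⟨_, rfl⟩
  have hcX := card_X h (Sg ∪ T)
  rw [← hX] at hcX ⊢
  have hX0 : Nat.card X ≠ 0 := by
    intro h0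
    rw [h0, zero_mul] at hcX
    exact (pow_ne_zero _ two_ne_zero) hcX.symm
  have hXf : Finite X := Nat.finite_of_card_ne_zero hX0
  -- the product of the indices
  obtain ⟨n, hn⟩ : ∃ n, n = Module.finrank ℚ k := ⟨_, rfl⟩
  obtain ⟨t, ht⟩ : ∃ t, t = Nat.card {s : k →+* ℝ // nr k L s = 3} := ⟨_, rfl⟩
  have hplc := places_count h hD
  rw [← hn, ← ht] at hplc
  have hfinI : ∀ v : HeightOneSpectrum (𝓞 k), (Wf v).relIndex (HH k L) ≠ 0 ∧
      2 * (Wf v).relIndex (HH k L) ≤ 2 ^ nb k L v * qq v :=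
    fun v => loc_idx_tw h v (ha v) (hb v) hD hE (hWf v)
  have hreI : ∀ s : k →+* ℝ, (Wr s).relIndex (HH k L) ≠ 0 ∧
      2 * (Wr s).relIndex (HH k L) ≤ nr k L s + 1 :=
    fun s => real_idx hE2 hDE s (hWr s)
  have hqq : ∏ v ∈ Sg, qq v = 2 ^ n := by
    rw [hn]
    exact prod_two Sg h2
  have hP1 : 2 ^ Sg.card * ∏ v ∈ Sg, (Wf v).relIndex (HH k L) ≤
      2 ^ (∑ v ∈ Sg, nb k L v) * 2 ^ n := by
    have h1 : ∏ v ∈ Sg, (2 * (Wf v).relIndex (HH k L)) ≤
        ∏ v ∈ Sg, (2 ^ nb k L v * qq v) :=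
      Finset.prod_le_prod (fun v _ => Nat.zero_le _) (fun v _ => (hfinI v).2)
    rw [Finset.prod_mul_distrib, Finset.prod_mul_distrib, Finset.prod_const,
      Finset.prod_pow_eq_pow_sum, hqq] at h1
    exact h1
  have hP2 : 2 ^ Q.card * ∏ s : {s : k →+* ℝ // s ∉ Q}, (Wr s.1).relIndex (HH k L) ≤ 2 ^ t := by
    obtain ⟨g, hg⟩ : ∃ g : (k →+* ℝ) → ℕ, ∀ s, g s = if nr k L s = 3 then 2 else 1 :=
      ⟨fun s => if nr k L s = 3 then 2 else 1, fun _ => rfl⟩
    have h1 : ∏ s : {s : k →+* ℝ // s ∉ Q}, (Wr s.1).relIndex (HH k L) ≤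
        ∏ s : {s : k →+* ℝ // s ∉ Q}, g s.1 := by
      refine Finset.prod_le_prod (fun s _ => Nat.zero_le _) (fun s _ => ?_)
      have h2 := (hreI s.1).2
      rw [hg]
      rcases nr_cases h hD s.1 with h3 | h3
      · rw [h3] at h2
        rw [h3]
        simp only [OfNat.one_ne_ofNat, if_false]
        omega
      · rw [h3] at h2
        rw [h3, if_pos rfl]
        omega
    have h2 : ∏ s : {s : k →+* ℝ // s ∈ Q}, g s.1 = 2 ^ Q.card := by
      have h3 : ∀ s : {s : k →+* ℝ // s ∈ Q}, g s.1 = 2 := fun s => by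
        rw [hg, if_pos (hQ s.1 s.2)]
      simp only [h3, Finset.prod_const, Finset.card_univ, Fintype.card_coe]
    have h3 := Fintype.prod_subtype_mul_prod_subtype (fun s : k →+* ℝ => s ∈ Q) g
    have h4 : ∏ s : k →+* ℝ, g s = 2 ^ t := by
      simp only [hg]
      rw [Finset.prod_ite, Finset.prod_const_one, mul_one, Finset.prod_const, ht,
        Nat.card_eq_fintype_card, Fintype.card_subtype]
    rw [← h4, ← h3, ← h2]
    refine Nat.mul_le_mul (le_of_eq ?_) (h1.trans (le_of_eq ?_))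
    · exact Finset.prod_congr (Finset.ext fun x => by simp only [Finset.mem_univ]) fun _ _ => rfl
    · exact Finset.prod_congr (Finset.ext fun x => by simp only [Finset.mem_univ]) fun _ _ => rfl
  -- the intersection
  have hZ : W = (⨅ j : {v // v ∈ Sg} ⊕ {s : k →+* ℝ // s ∉ Q},
      Sum.elim (fun v => Wf v.1) (fun s => Wr s.1) j) ⊓ HH k L := by
    ext c
    rw [hW c, AddSubgroup.mem_inf, AddSubgroup.mem_iInf]
    constructor
    · rintro ⟨c1, c2, c3⟩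
      refine ⟨?_, c1⟩
      rintro (v | s)
      · exact (hWf v.1 c).2 ⟨c1, c2 v.1 v.2⟩
      · exact (hWr s.1 c).2 ⟨c1, c3 s.1 s.2⟩
    · rintro ⟨c1, c2⟩
      exact ⟨c2, fun v hv => ((hWf v c).1 (c1 (Sum.inl ⟨v, hv⟩))).2,
        fun s hs => ((hWr s c).1 (c1 (Sum.inr ⟨s, hs⟩))).2⟩
  have hrel : W.relIndex (HH k L) = (⨅ j : {v // v ∈ Sg} ⊕ {s : k →+* ℝ // s ∉ Q},
      Sum.elim (fun v => Wf v.1) (fun s => Wr s.1) j).relIndex (HH k L) := by
    rw [hZ, AddSubgroup.inf_relIndex_right]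
  have hidx : W.relIndex (HH k L) ≤ (∏ v ∈ Sg, (Wf v).relIndex (HH k L)) *
      ∏ s : {s : k →+* ℝ // s ∉ Q}, (Wr s.1).relIndex (HH k L) := by
    rw [hrel]
    refine (AddSubgroup.relIndex_iInf_le _).trans (le_of_eq ?_)
    rw [Fintype.prod_sum_type]
    simp only [Sum.elim_inl, Sum.elim_inr]
    rw [← Finset.prod_coe_sort Sg (fun v => (Wf v).relIndex (HH k L))]
  have hne : W.relIndex (HH k L) ≠ 0 := by
    rw [hrel]
    refine AddSubgroup.relIndex_iInf_ne_zero ?_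
    rintro (v | s)
    · exact (hfinI v.1).1
    · exact (hreI s.1).1
  refine ⟨hne, ?_, hXf⟩
  -- conclusion
  have hnb : ∑ v ∈ Sg ∪ T, nb k L v = (∑ v ∈ Sg, nb k L v) + ((∑ v ∈ T, m v) + T.card) := by
    rw [Finset.sum_union hd]
    congr 1
    rw [Finset.sum_congr rfl hT, Finset.sum_add_distrib, Finset.sum_const, smul_eq_mul, mul_one]
  have hSc : (Sg ∪ T).card = Sg.card + T.card := Finset.card_union_of_disjoint hd
  have h1 : Nat.card X * 2 ^ (Sg ∪ T).card = 2 ^ (∑ v ∈ Sg ∪ T, nb k L v) * 2 ^ n * 2 ^ t := by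
    have h2 : Nat.card X * 2 ^ (Sg ∪ T).card *
        2 ^ (InfinitePlace.nrRealPlaces k + InfinitePlace.nrComplexPlaces k) =
        2 ^ (∑ v ∈ Sg ∪ T, nb k L v) * 2 ^ n * 2 ^ t *
        2 ^ (InfinitePlace.nrRealPlaces k + InfinitePlace.nrComplexPlaces k) := by
      rw [mul_assoc, ← pow_add, hcX, hplc, ← pow_add, ← pow_add, ← pow_add]
      congr 1
      omega
    exact Nat.eq_of_mul_eq_mul_right (pow_pos two_pos _) h2
  refine Nat.le_of_mul_le_mul_right (c := 2 ^ (Sg ∪ T).card) ?_ (pow_pos two_pos _)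
  rw [h1]
  calc 2 ^ ((∑ v ∈ T, m v) + Q.card) * W.relIndex (HH k L) * 2 ^ (Sg ∪ T).card
      ≤ 2 ^ ((∑ v ∈ T, m v) + Q.card) * ((∏ v ∈ Sg, (Wf v).relIndex (HH k L)) *
          ∏ s : {s : k →+* ℝ // s ∉ Q}, (Wr s.1).relIndex (HH k L)) * 2 ^ (Sg ∪ T).card :=
        Nat.mul_le_mul_right _ (Nat.mul_le_mul_left _ hidx)
    _ = 2 ^ ((∑ v ∈ T, m v) + T.card) * ((2 ^ Sg.card * ∏ v ∈ Sg, (Wf v).relIndex (HH k L)) *
          (2 ^ Q.card * ∏ s : {s : k →+* ℝ // s ∉ Q}, (Wr s.1).relIndex (HH k L))) := by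
        rw [hSc, pow_add, pow_add, pow_add]
        ring
    _ ≤ 2 ^ ((∑ v ∈ T, m v) + T.card) * ((2 ^ (∑ v ∈ Sg, nb k L v) * 2 ^ n) * 2 ^ t) :=
        Nat.mul_le_mul_left _ (Nat.mul_le_mul hP1 hP2)
    _ = 2 ^ (∑ v ∈ Sg ∪ T, nb k L v) * 2 ^ n * 2 ^ t := by
        rw [hnb, pow_add]
        ring

theorem card_YQ {K L : Type} [Field K] [NumberField K] [Field L] [NumberField L] [Algebra K L]
    {a b : K} {θ : L} {S : Ext K K L a b θ} {D : K} {Sg T : Finset (HeightOneSpectrum (𝓞 K))}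
    (hD1 : D ≠ 0) (h2 : ∀ v : HeightOneSpectrum (𝓞 K), v.valuation K 2 < 1 → v ∈ Sg)
    (hd : Disjoint Sg T) {m : HeightOneSpectrum (𝓞 K) → ℕ}
    (hT : ∀ v ∈ T, H30ZO.nb K L v = m v + 1) {Q : Finset (K →+* ℝ)}
    (hQ : ∀ s ∈ Q, nr K L s = 3) {Y : AddSubgroup (SC L)}
    (hY : ∀ c, c ∈ Y ↔ c ∈ HH K L ∧ (∀ v ∈ Sg, S.Lv D v c) ∧ (∀ s : K →+* ℝ, s ∉ Q → S.Lr D s c) ∧
      ∀ w : HeightOneSpectrum (𝓞 L), dn K w ∉ Sg → dn K w ∉ T → eo w c = 0) :
    Finite Y ∧ 2 ^ ((∑ v ∈ T, m v) + Q.card) ≤ Nat.card Y := by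
  have hDE : algebraMap K K D ≠ 0 := (map_ne_zero _).2 hD1
  have m1 : ∀ v : HeightOneSpectrum (𝓞 K), v ∈ Sg ↔ dn K v ∈ Sg := fun v => by
    rw [dn_self]
  have m2 : ∀ v : HeightOneSpectrum (𝓞 K), v ∈ T ↔ dn K v ∈ T := fun v => by
    rw [dn_self]
  obtain ⟨W, hW⟩ : ∃ W : AddSubgroup (SC L), ∀ c, c ∈ W ↔ c ∈ HH K L ∧
      (∀ v ∈ Sg, Wc (algebraMap K (v.adicCompletion K))
        ((algebraMap K K D) ^ 2 * algebraMap K K a) ((algebraMap K K D) ^ 3 * algebraMap K K b)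
        (algebraMap K L (algebraMap K K D) * θ) c) ∧
      ∀ s : K →+* ℝ, s ∉ Q → Wc s ((algebraMap K K D) ^ 2 * algebraMap K K a)
        ((algebraMap K K D) ^ 3 * algebraMap K K b) (algebraMap K L (algebraMap K K D) * θ) c := by
    have hD0 := dne_F S
    have hDE' := H76OD.Lt_dne hDE hD0
    have hE2 := Tf_twist S.cub hDE
    have hWv : ∀ v : HeightOneSpectrum (𝓞 K), ∃ W : AddSubgroup (SC L), ∀ c, c ∈ W ↔
        c ∈ HH K L ∧ Wc (algebraMap K (v.adicCompletion K))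
          ((algebraMap K K D) ^ 2 * algebraMap K K a) ((algebraMap K K D) ^ 3 * algebraMap K K b)
          (algebraMap K L (algebraMap K K D) * θ) c := by
      intro v
      have _ := H36CY.char_zero v
      refine exists_WW hE2 _ ?_ (H24PD.inf_fin v _ _)
      intro e
      apply hDE'
      apply (algebraMap K (v.adicCompletion K)).injective
      rw [map_zero, map_add, map_mul, map_mul, map_pow, map_pow, map_ofNat, map_ofNat]
      exact e
    choose Wf hWf using hWv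
    have hWs : ∀ s : K →+* ℝ, ∃ W : AddSubgroup (SC L), ∀ c, c ∈ W ↔
        c ∈ HH K L ∧ Wc s ((algebraMap K K D) ^ 2 * algebraMap K K a)
          ((algebraMap K K D) ^ 3 * algebraMap K K b)
          (algebraMap K L (algebraMap K K D) * θ) c := by
      intro s
      refine exists_WW hE2 s ?_ (H24PD.inf_real _ _)
      intro e
      apply hDE'
      apply s.injective
      rw [map_zero, map_add, map_mul, map_mul, map_pow, map_pow, map_ofNat, map_ofNat]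
      exact e
    choose Wr hWr using hWs
    refine ⟨(⨅ j : {v // v ∈ Sg} ⊕ {s : K →+* ℝ // s ∉ Q},
      Sum.elim (fun v => Wf v.1) (fun s => Wr s.1) j) ⊓ HH K L, ?_⟩
    intro c
    rw [AddSubgroup.mem_inf, AddSubgroup.mem_iInf]
    constructor
    · rintro ⟨c1, c2⟩
      exact ⟨c2, fun v hv => ((hWf v c).1 (c1 (Sum.inl ⟨v, hv⟩))).2,
        fun s hs => ((hWr s c).1 (c1 (Sum.inr ⟨s, hs⟩))).2⟩
    · rintro ⟨c1, c2, c3⟩
      refine ⟨?_, c1⟩
      rintro (v | s)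
      · exact (hWf v.1 c).2 ⟨c1, c2 v.1 v.2⟩
      · exact (hWr s.1 c).2 ⟨c1, c3 s.1 s.2⟩
  have key := card_twR S.cub (k := K) (a := algebraMap K K a) (b := algebraMap K K b)
    (fun v => H76PP.val_le (S.ha _)) (fun v => H76PP.val_le (S.hb _)) (dne_F S) hDE hd
    h2
    hT hQ hW
  obtain ⟨k1, k2, k3⟩ := key
  obtain ⟨X, hX⟩ : ∃ X : AddSubgroup (SC L),
      X = H24TD.US L {w : HeightOneSpectrum (𝓞 L) | dn K w ∈ Sg ∪ T} ⊓ HH K L := ⟨_, rfl⟩
  rw [← hX] at k2 k3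
  have hXH : X ≤ HH K L := by
    rw [hX]
    exact inf_le_right
  -- `Y` contains the intersection
  have hYX : W ⊓ X ≤ Y := by
    intro c hc
    obtain ⟨c1, c2⟩ := AddSubgroup.mem_inf.1 hc
    obtain ⟨h1, h2, h3⟩ := (hW c).1 c1
    refine (hY c).2 ⟨h1, fun v hv => (Lv_iff S D v c).2 (h2 v hv),
      fun s hs => (Lr_iff S D s c).2 (h3 s hs), ?_⟩
    intro w hw1 hw2
    rw [hX] at c2
    obtain ⟨u, hu, rfl⟩ := (AddSubgroup.mem_inf.1 c2).1
    rw [H24TD.cls_eq, H38T1.eo_sc (Units.ne_zero _)]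
    have h4 : w.valuation L ((Additive.toMul u : Lˣ) : L) = 1 := by
      refine hu w ?_
      intro h5
      have h6 : dn K w ∈ Sg ∪ T := h5
      rw [Finset.mem_union] at h6
      rcases h6 with h6 | h6
      · exact hw1 h6
      · exact hw2 h6
    rw [ord, h4, log_one, neg_zero, Int.cast_zero]
  have hYf : Finite Y := by
    have hSL : {w : HeightOneSpectrum (𝓞 L) | dn K w ∈ Sg ∪ T}.Finite := by
      have h1 : {w : HeightOneSpectrum (𝓞 L) | dn K w ∈ Sg ∪ T} =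
          ⋃ v ∈ Sg ∪ T, {w : HeightOneSpectrum (𝓞 L) | dn K w = v} := by
        ext w
        simp
      rw [h1]
      exact (Sg ∪ T).finite_toSet.biUnion fun v _ => fin_above v
    have h2 := H24TD.fin_US hSL
    have h3 : (Y : Set (SC L)) ⊆ {c : SC L |
        ∀ w, w ∉ {w : HeightOneSpectrum (𝓞 L) | dn K w ∈ Sg ∪ T} → eo w c = 0} := by
      intro c hc w hw
      have hw' : dn K w ∉ Sg ∪ T := hw
      rw [Finset.mem_union, not_or] at hw'
      exact ((hY c).1 hc).2.2.2 w hw'.1 hw'.2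
    exact (h2.subset h3).to_subtype
  refine ⟨hYf, ?_⟩
  have hcard2 : Nat.card X = Nat.card ↥(W ⊓ X : AddSubgroup (SC L)) * W.relIndex X := by
    have h1 := AddSubgroup.relIndex_mul_relIndex (⊥ : AddSubgroup (SC L)) (W ⊓ X) X bot_le
      inf_le_right
    rw [AddSubgroup.relIndex_bot_left, AddSubgroup.relIndex_bot_left,
      AddSubgroup.inf_relIndex_right] at h1
    exact h1.symm
  have hle : Nat.card ↥(W ⊓ X : AddSubgroup (SC L)) ≤ Nat.card Y :=
    Nat.card_le_card_of_injective (AddSubgroup.inclusion hYX) (AddSubgroup.inclusion_injective hYX)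
  have h5 : W.relIndex X ≤ W.relIndex (HH K L) := AddSubgroup.relIndex_le_of_le_right hXH k1
  have h6 : 2 ^ ((∑ v ∈ T, m v) + Q.card) * W.relIndex (HH K L) ≤
      Nat.card Y * W.relIndex (HH K L) := by
    refine k2.trans ?_
    rw [hcard2]
    exact Nat.mul_le_mul hle h5
  exact Nat.le_of_mul_le_mul_right h6 (Nat.pos_of_ne_zero k1)

end H88PL
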