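import Pool.Agent.H26.OD.Jc

/-!
ROW Pb (project MP_78d38b_OD, about 200 lines): a Galois element which moves the roots of all the cubics, has two-power order on
`N` and prescribed signs on square roots of elements of `K`.

PROOF. As `exists_tau` (Pool/Agent/H26/OD/Jc.lean; copy its private lemmas): `Ω` = a Galois extension of `K` containing `N`, the
roots of all the cubics and the square roots `s d` of the `d ∈ D ∪ {Δ_j}` (`Jc_field` over `M := N` with the images of `D` in `𝓞 N`).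
`σ0 : Ω ≃ₐ[K] Ω` with `σ0 (s d) = ± s d` according to `φ` (`H30MQ.exists_sigma` over `K`), in particular `σ0 (s Δ_j) = s Δ_j`.
Let `n = 2 ^ e * n'` (`n'` odd) be the order of `σ0` and `m = 3 * n'` (odd). `σ := σ0 ^ m` has the same signs, fixes all the roots
`r j i` (`Big.even`: `σ0 ^ 3` fixes them) and `σ ^ (2 ^ e) = 1`.
`h_k` (`Big.cycle (N := N)`, `k : ι`) fixes `N` and `r j i` for `j ≠ k` and moves `r k i`; `h_k ^ 2` also fixes all `s d` (`d ∈ D`),
moves `r k i` (`Big.cube`: `h_k ^ 3` fixes `r k i`). `ρ` = product of the `h_k ^ 2` (as in Jc_rho): fixes `N`, all `s d`, moves all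
`r j i`. `τ := σ * ρ` (or `ρ * σ`).
-/

set_option autoImplicit false
set_option linter.unusedSectionVars false
open scoped Classical

open WithZero NumberField IsDedekindDomain H38RT
open H38T1 (SC sc scu rep eo la si OddP)
open H26OD (dd3 Big)

namespace H88PL

private theorem Pb_split {M E : Type} [Field M] [Field E] [Algebra M E] (A B : M)
    {P : Polynomial M} (hP : P ≠ 0)
    (hdvd : (Polynomial.X ^ 3 + Polynomial.C A * Polynomial.X + Polynomial.C B : Polynomial M) ∣ P)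
    (hs : (P.map (algebraMap M E)).Splits) :
    ∃ r : Fin 3 → E, ∀ x : E, x ^ 3 + algebraMap M E A * x + algebraMap M E B =
      (x - r 0) * (x - r 1) * (x - r 2) := by
  have hf3 : (Polynomial.X ^ 3 + Polynomial.C A * Polynomial.X + Polynomial.C B :
      Polynomial M).natDegree = 3 := by
    compute_degree!
  have hfm : (Polynomial.X ^ 3 + Polynomial.C A * Polynomial.X + Polynomial.C B :
      Polynomial M).Monic := by
    monicity!
  set f : Polynomial M := Polynomial.X ^ 3 + Polynomial.C A * Polynomial.X + Polynomial.C B with hf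
  have hsp : (f.map (algebraMap M E)).Splits :=
    hs.of_dvd (Polynomial.map_ne_zero hP) (Polynomial.map_dvd _ hdvd)
  have hfF : (f.map (algebraMap M E)).natDegree = 3 := by
    rw [hfm.natDegree_map, hf3]
  have hcard : (f.map (algebraMap M E)).roots.card = 3 := by
    rw [← hsp.natDegree_eq_card_roots, hfF]
  obtain ⟨r, s, u, hrs⟩ := Multiset.card_eq_three.mp hcard
  refine ⟨![r, s, u], fun x => ?_⟩
  have h := hsp.eval_eq_prod_roots_of_monic (hfm.map _) x
  rw [hrs, hf] at h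
  simp only [Polynomial.map_add, Polynomial.map_mul, Polynomial.map_pow, Polynomial.map_X,
    Polynomial.map_C, Polynomial.eval_add, Polynomial.eval_mul, Polynomial.eval_pow,
    Polynomial.eval_X, Polynomial.eval_C] at h
  rw [h]
  simp [mul_assoc]

private theorem Pb_field {K M : Type} [Field K] [NumberField K] [Field M] [NumberField M]
    [Algebra K M] {ι : Type} [Fintype ι] (A B : ι → M) (D : Finset (𝓞 M)) :
    ∃ (Ω : Type) (_ : Field Ω) (_ : NumberField Ω) (_ : Algebra K Ω) (_ : Algebra M Ω)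
      (_ : IsScalarTower K M Ω) (_ : IsGalois K Ω) (s : 𝓞 M → Ω) (r : ι → Fin 3 → Ω),
      (∀ d ∈ D, s d ^ 2 = algebraMap M Ω (d : M)) ∧
      ∀ (j : ι) (x : Ω), x ^ 3 + algebraMap M Ω (A j) * x + algebraMap M Ω (B j) =
        (x - r j 0) * (x - r j 1) * (x - r j 2) := by
  obtain ⟨P, hPd⟩ : ∃ P : Polynomial M, P = ∏ j, (Polynomial.X ^ 3 +
    Polynomial.C (A j) * Polynomial.X + Polynomial.C (B j)) := ⟨_, rfl⟩
  have hP : P ≠ 0 := by
    rw [hPd]
    refine Finset.prod_ne_zero_iff.2 fun j _ => Polynomial.Monic.ne_zero ?_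
    monicity!
  have hN1 : NumberField P.SplittingField :=
    { to_charZero := charZero_of_injective_algebraMap (algebraMap M P.SplittingField).injective
      to_finiteDimensional := by
        have h1 : FiniteDimensional M P.SplittingField := inferInstance
        have h2 : CharZero P.SplittingField :=
          charZero_of_injective_algebraMap (algebraMap M P.SplittingField).injective
        exact Module.Finite.trans M _ }
  obtain ⟨D1, hD1⟩ : ∃ D1 : Finset (𝓞 P.SplittingField),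
    D1 = D.image (algebraMap (𝓞 M) (𝓞 P.SplittingField)) := ⟨_, rfl⟩
  obtain ⟨Ω, i1, i2, i3, i4, i5, i6, s, hs⟩ := H76OD.exists_fieldM (K := K) P.SplittingField D1
  let hA : Algebra M Ω := ((algebraMap P.SplittingField Ω).comp (algebraMap M P.SplittingField)).toAlgebra
  have hmap : ∀ x : M, algebraMap M Ω x = algebraMap P.SplittingField Ω (algebraMap M P.SplittingField x) :=
    fun _ => rfl
  have hT : IsScalarTower K M Ω := IsScalarTower.of_algebraMap_eq fun x => by
    rw [hmap, ← IsScalarTower.algebraMap_apply K M P.SplittingField,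
      ← IsScalarTower.algebraMap_apply K P.SplittingField Ω]
  have hr : ∀ j, ∃ r : Fin 3 → Ω, ∀ x : Ω,
      x ^ 3 + algebraMap M Ω (A j) * x + algebraMap M Ω (B j) = (x - r 0) * (x - r 1) * (x - r 2) :=
    fun j => Pb_split (A j) (B j) hP (by
      rw [hPd]
      exact Finset.dvd_prod_of_mem _ (Finset.mem_univ j)) (by
      have h1 := (Polynomial.SplittingField.splits P).map (algebraMap P.SplittingField Ω)
      rw [Polynomial.map_map] at h1
      exact h1)
  choose r hr using hr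
  refine ⟨Ω, i1, i2, i3, hA, hT, i6, fun d => s (algebraMap (𝓞 M) (𝓞 P.SplittingField) d),
    r, fun d hd => ?_, hr⟩
  have h := hs (algebraMap (𝓞 M) (𝓞 P.SplittingField) d) (by
    rw [hD1]
    exact Finset.mem_image_of_mem _ hd)
  rw [h, hmap]
  rfl

private theorem Pb_rho {K M Ω ι : Type} [Field K] [CharZero K] [Field M] [Field Ω] [Algebra K Ω]
    [Algebra M Ω] [FiniteDimensional K Ω] {a b : ι → K} {r : ι → Fin 3 → Ω} (B : Big K Ω a b r)
    (D : Set Ω) (hD : ∀ y ∈ D, ∃ x : M, y ^ 2 = algebraMap M Ω x)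
    (hh : ∀ k, ∃ h : Ω ≃ₐ[K] Ω, (∀ x : M, h (algebraMap M Ω x) = algebraMap M Ω x) ∧
      (∀ j, j ≠ k → ∀ m, h (r j m) = r j m) ∧ (∀ m, h (r k m) ≠ r k m) ∧
      ∀ m, h (h (h (r k m))) = r k m) (J : Finset ι) :
    ∃ ρ : Ω ≃ₐ[K] Ω, (∀ x : M, ρ (algebraMap M Ω x) = algebraMap M Ω x) ∧ (∀ y ∈ D, ρ y = y) ∧
      (∀ j, j ∉ J → ∀ m, ρ (r j m) = r j m) ∧ ∀ k ∈ J, ∀ m, ρ (r k m) ≠ r k m := by
  induction J using Finset.induction_on with
  | empty =>
    exact ⟨AlgEquiv.refl, fun _ => rfl, fun _ _ => rfl, fun _ _ _ => rfl, fun k hk => by simp at hk⟩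
  | insert k J hk ih =>
    obtain ⟨ρ, h1, h2, h3, h4⟩ := ih
    obtain ⟨h, g1, g2, g3, g4⟩ := hh k
    have hfour : ∀ y ∈ D, h (h (h (h y))) = y := by
      intro y hy
      obtain ⟨x, hx⟩ := hD y hy
      have e1 : h y ^ 2 = y ^ 2 := by rw [← map_pow, hx, g1]
      rcases sq_eq_sq_iff_eq_or_eq_neg.1 e1 with e2 | e2
      · rw [e2, e2, e2, e2]
      · simp only [e2, map_neg, neg_neg]
    refine ⟨h.trans (h.trans (h.trans (h.trans ρ))), fun x => ?_, fun y hy => ?_, fun j hj m => ?_,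
      fun k' hk' m => ?_⟩
    · change ρ (h (h (h (h (algebraMap M Ω x))))) = _
      rw [g1, g1, g1, g1, h1]
    · change ρ (h (h (h (h y)))) = y
      rw [hfour y hy, h2 y hy]
    · rw [Finset.mem_insert, not_or] at hj
      change ρ (h (h (h (h (r j m))))) = _
      rw [g2 j hj.1, g2 j hj.1, g2 j hj.1, g2 j hj.1, h3 j hj.2]
    · change ρ (h (h (h (h (r k' m))))) ≠ _
      rcases Finset.mem_insert.1 hk' with e | e
      · rw [e, g4]
        obtain ⟨m', hm'⟩ := B.perm h k m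
        rw [hm', h3 k hk, ← hm']
        exact g3 m
      · have hne : k' ≠ k := by
          rintro rfl
          exact hk e
        rw [g2 k' hne, g2 k' hne, g2 k' hne, g2 k' hne]
        exact h4 k' e m

private theorem Pb_sign {K Ω : Type} [Field K] [Field Ω] [Algebra K Ω] (σ : Ω ≃ₐ[K] Ω) (y : Ω)
    (h : σ y = -y) (n : ℕ) : (σ ^ (2 * n + 1)) y = -y := by
  induction n with
  | zero => simpa using h
  | succ n ih =>
    have e : 2 * (n + 1) + 1 = (2 * n + 1) + 1 + 1 := by ring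
    rw [e, pow_succ, pow_succ, AlgEquiv.mul_apply, AlgEquiv.mul_apply, h, map_neg, h, neg_neg, ih]

private theorem Pb_fix {K Ω : Type} [Field K] [Field Ω] [Algebra K Ω] (σ : Ω ≃ₐ[K] Ω) (y : Ω)
    (h : σ y = y) (n : ℕ) : (σ ^ n) y = y := by
  induction n with
  | zero => rfl
  | succ n ih => rw [pow_succ, AlgEquiv.mul_apply, h, ih]

theorem exists_tau2 {K N : Type} [Field K] [NumberField K] [Field N] [NumberField N]
    [Algebra K N] [IsGalois K N] {ι : Type} [Fintype ι] (a b : ι → 𝓞 K)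
    (hir : ∀ (j : ι) (t : K), t ^ 3 + (a j : K) * t + (b j : K) ≠ 0)
    (hind : ∀ I : Finset ι, I.Nonempty →
      ¬ IsSquare (algebraMap K N (∏ j ∈ I, dd3 (a j : K) (b j : K))))
    (D : Finset (𝓞 K)) (hD : ∀ d ∈ D, d ≠ 0) (φ : SC K →+ ZMod 2)
    (hφ : ∀ j, φ (sc (dd3 (a j : K) (b j : K))) = 0) :
    ∃ (Ω : Type) (_ : Field Ω) (_ : NumberField Ω) (_ : Algebra K Ω) (_ : Algebra N Ω)
      (_ : IsScalarTower K N Ω) (_ : IsGalois K Ω) (s : 𝓞 K → Ω) (r : ι → Fin 3 → Ω)
      (τ : Ω ≃ₐ[K] Ω),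
      (∀ d ∈ D, s d ^ 2 = algebraMap K Ω (d : K)) ∧
      (∀ (j : ι) (x : Ω), x ^ 3 + algebraMap K Ω (a j : K) * x + algebraMap K Ω (b j : K) =
        (x - r j 0) * (x - r j 1) * (x - r j 2)) ∧
      (∃ e : ℕ, ∀ x : N, (τ ^ (2 ^ e)) (algebraMap N Ω x) = algebraMap N Ω x) ∧
      (∀ d ∈ D, τ (s d) = if φ (sc (d : K)) = 0 then s d else -s d) ∧
      ∀ j m, τ (r j m) ≠ r j m := by
  have hdne : ∀ j, dd3 (a j : K) (b j : K) ≠ 0 := by
    intro j h
    apply hind {j} (Finset.singleton_nonempty j)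
    rw [Finset.prod_singleton, h, map_zero]
    exact ⟨0, (mul_zero 0).symm⟩
  obtain ⟨De, hDe⟩ : ∃ De : ι → 𝓞 K, ∀ j, ((De j : 𝓞 K) : K) = dd3 (a j : K) (b j : K) := by
    refine ⟨fun j => dd3 (a j) (b j), fun j => ?_⟩
    unfold dd3
    simp only [map_neg, map_add, map_mul, map_pow, map_ofNat]
  obtain ⟨Ω, i1, i2, i3, i4, i5, i6, s', r, hs', hr⟩ := Pb_field (K := K) (M := N)
    (fun j => algebraMap K N (a j : K)) (fun j => algebraMap K N (b j : K))
    ((D ∪ Finset.univ.image De).image (algebraMap (𝓞 K) (𝓞 N)))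
  have hr' : ∀ (j : ι) (x : Ω), x ^ 3 + algebraMap K Ω (a j : K) * x + algebraMap K Ω (b j : K) =
      (x - r j 0) * (x - r j 1) * (x - r j 2) := by
    intro j x
    rw [IsScalarTower.algebraMap_apply K N Ω, IsScalarTower.algebraMap_apply K N Ω]
    exact hr j x
  have B : Big K Ω (fun j => (a j : K)) (fun j => (b j : K)) r := ⟨i6, hr'⟩
  obtain ⟨s, hsd⟩ : ∃ s : 𝓞 K → Ω, ∀ d, s d = s' (algebraMap (𝓞 K) (𝓞 N) d) := ⟨_, fun _ => rfl⟩
  have hsN : ∀ d ∈ D ∪ Finset.univ.image De,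
      s d ^ 2 = algebraMap N Ω (algebraMap K N (d : K)) := by
    intro d hd
    rw [hsd, hs' _ (Finset.mem_image_of_mem _ hd)]
    rfl
  have hs : ∀ d ∈ D ∪ Finset.univ.image De, s d ^ 2 = algebraMap K Ω (d : K) := by
    intro d hd
    rw [hsN d hd, ← IsScalarTower.algebraMap_apply K N Ω]
  have hfd : FiniteDimensional K Ω := Module.Finite.of_restrictScalars_finite ℚ K Ω
  have hD' : ∀ d ∈ D ∪ Finset.univ.image De, d ≠ 0 := by
    intro d hd
    rcases Finset.mem_union.1 hd with h | h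
    · exact hD d h
    · obtain ⟨j, -, rfl⟩ := Finset.mem_image.1 h
      intro h0
      have h1 := hDe j
      rw [h0] at h1
      exact hdne j (h1.symm.trans (map_zero _))
  obtain ⟨σ, hσ⟩ := H30MQ.exists_sigma (K := K) (L := Ω) (D ∪ Finset.univ.image De) hD' s hs φ
  have hσr : ∀ j m, (σ ^ 3) (r j m) = r j m := by
    intro j m
    have hev := B.even (h := σ) (k := j) (hdne j) (by
      have e1 := B.disc j
      have hm : De j ∈ D ∪ Finset.univ.image De :=
        Finset.mem_union_right _ (Finset.mem_image_of_mem _ (Finset.mem_univ j))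
      have e2 := hs (De j) hm
      rw [hDe] at e2
      have e3 : σ (s (De j)) = s (De j) := by
        rw [hσ (De j) hm, hDe, if_pos (hφ j)]
      rcases sq_eq_sq_iff_eq_or_eq_neg.1 (e1.trans e2.symm) with e4 | e4
      · rw [e4, e3]
      · rw [e4, map_neg, e3]) m
    exact hev
  have hfin : Finite (Ω ≃ₐ[K] Ω) := inferInstance
  obtain ⟨e, n', hn', hord⟩ : ∃ e n' : ℕ, Odd n' ∧ orderOf σ = 2 ^ e * n' :=
    Nat.exists_eq_two_pow_mul_odd (orderOf_pos σ).ne'
  obtain ⟨w, hw⟩ : ∃ w, 3 * n' = 2 * w + 1 := Odd.mul (by decide) hn'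
  obtain ⟨ρ, p1, p2, p3, p4⟩ := Pb_rho (M := N) B {y | ∃ d ∈ D, y = s d} (by
    rintro y ⟨d, hd, rfl⟩
    exact ⟨algebraMap K N (d : K), hsN d (Finset.mem_union_left _ hd)⟩) (fun k => by
    obtain ⟨h, h1, h2, h3⟩ := B.cycle (N := N) hir hind k
    exact ⟨h, h1, h2, h3, fun m => B.cube (hdne k) h3 m⟩) Finset.univ
  have hn1 : (σ ^ (3 * n')) ^ 2 ^ e = 1 := by
    rw [← pow_mul, show 3 * n' * 2 ^ e = orderOf σ * 3 by rw [hord]; ring, pow_mul,
      pow_orderOf_eq_one, one_pow]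
  have hres : ∀ (g : Ω ≃ₐ[K] Ω) (x : N), ∃ x' : N, g (algebraMap N Ω x) = algebraMap N Ω x' :=
    fun g x => ⟨g.restrictNormal N x, (AlgEquiv.restrictNormal_commutes g N x).symm⟩
  have hpw : ∀ (k : ℕ) (x : N), ((σ ^ (3 * n') * ρ) ^ k) (algebraMap N Ω x) =
      ((σ ^ (3 * n')) ^ k) (algebraMap N Ω x) := by
    intro k
    induction k with
    | zero => exact fun _ => rfl
    | succ k ih =>
      intro x
      obtain ⟨x', hx'⟩ := hres (σ ^ (3 * n')) x
      rw [pow_succ, AlgEquiv.mul_apply, AlgEquiv.mul_apply, p1, hx', ih x', ← hx',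
        ← AlgEquiv.mul_apply, ← pow_succ]
  have hroot : ∀ j m, (σ ^ (3 * n')) (r j m) = r j m := by
    intro j m
    rw [pow_mul]
    exact Pb_fix _ _ (hσr j m) n'
  refine ⟨Ω, i1, i2, i3, i4, i5, i6, s, r, σ ^ (3 * n') * ρ,
    fun d hd => hs d (Finset.mem_union_left _ hd), hr', ⟨e, fun x => ?_⟩, fun d hd => ?_,
    fun j m => ?_⟩
  · rw [hpw, hn1]
    rfl
  · rw [AlgEquiv.mul_apply, p2 (s d) ⟨d, hd, rfl⟩, hw]
    have h1 := hσ d (Finset.mem_union_left _ hd)
    split_ifs at h1 ⊢ with h2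
    · exact Pb_fix _ _ h1 _
    · exact Pb_sign _ _ h1 _
  · obtain ⟨m', hm'⟩ := B.perm ρ j m
    have hne := p4 j (Finset.mem_univ j) m
    rw [AlgEquiv.mul_apply, hm', hroot]
    rw [hm'] at hne
    exact hne

end H88PL
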