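import Pool.Agent.H26.OD.Jd
import Pool.Agent.H88.PL.Pb

/-!
ROW Pc (project MP_78d38b_OD, about 200 lines): primes of `K` with prescribed symbols at which the cubics have no root over all
fields between `K` and `N`.  Use the STATEMENT of Pb.

PROOF. As `cheb_J` (Pool/Agent/H26/OD/Jd.lean) with `K` in the place of `N'`: `D` = integral representatives (`H76OD.exists_irep`) of
the classes in `B`, `Ω, s, r, τ` from `exists_tau2`; `H30MQ.frob_infK τ`: infinitely many `v` with `g`, `W | v` in `Ω`,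
`IsArithFrobAt (𝓞 K) g W`, and `g`, `τ` generate the same subgroup (`hg`; `H30MQ.same_sign`). Bad places: `X`, above 2, above
`d ∈ D`, above `dd3 (a j) (b j)`. Symbols: `H30MQ.la_of_frob` (as in cheb_J, `K` for `N'`).
No roots: let `k` be between `K` and `N`, `u | v` a place of `k`, `t ∈ 𝓞 k` with `t ^ 3 + a_j t + b_j ∈ u`. `Ω` is an extension of `k`
(via `N`). There is a place `W'` of `Ω` above `u`, it is above `v`, so `W' = h W` for some `h ∈ Gal(Ω / K)`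
(`Ideal.exists_smul_eq_of_isGaloisGroup`), and `g' := h g h⁻¹` is a Frobenius at `W'` (or: replace `t` by working with `h⁻¹` of the
image of `t` in `Ω`: `x := h⁻¹ t ∈ 𝓞 Ω` satisfies `x ^ 3 + a_j x + b_j ∈ W`, and `x` lies in the image of `N` (Galois)). So with
`x ∈ 𝓞 N`: `x ^ 3 + a_j x + b_j = (x - r j 0) (x - r j 1) (x - r j 2) ∈ W`, so `x - r j m ∈ W` for some `m`; `G := g ^ (2 ^ e)` fixes
`N` (same subgroup as `τ`) and preserves `W` (Frobenius elements are in the decomposition group: `g y ≡ y ^ q mod W`),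
so `x - G (r j m) ∈ W`, `r j m - G (r j m) ∈ W`; the discriminant is not in `W`, so `G (r j m) = r j m`
(`Big.perm`: `G (r j m) = r j m'`). But `g` moves all three roots, so it acts as a 3-cycle and `g ^ (2 ^ e)` too (`Big.cube`:
`g ^ 3` fixes the roots; if `g ^ (2 ^ e)` fixes `r j m` then so does `g`, as `gcd(3, 2 ^ e) = 1`). Contradiction.
-/

set_option autoImplicit false
set_option linter.unusedSectionVars false
open scoped Classical

open WithZero NumberField IsDedekindDomain H38RT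
open H38T1 (SC sc scu rep eo la si OddP)
open H76PP (Cub LC ev scm dn)
open H26OD (dd3 Big)

namespace H88PL

/-- The cubic has no root modulo the places above `q` of the number fields between `K` and `N`. -/
def NRN (K N : Type) [Field K] [NumberField K] [Field N] [NumberField N] [Algebra K N]
    (a b : 𝓞 K) (q : HeightOneSpectrum (𝓞 K)) : Prop :=
  ∀ (k : Type) [Field k] [NumberField k] [Algebra K k] [Algebra k N] [IsScalarTower K k N]
    (u : HeightOneSpectrum (𝓞 k)), dn K u = q → ∀ t : 𝓞 k,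
    t ^ 3 + algebraMap (𝓞 K) (𝓞 k) a * t + algebraMap (𝓞 K) (𝓞 k) b ∉ u.asIdeal

private theorem Pc_irep {K : Type} [Field K] [NumberField K] (β : SC K) :
    ∃ d : 𝓞 K, d ≠ 0 ∧ sc (d : K) = β := by
  obtain ⟨x, hx, rfl⟩ := H38T1.sc_surj β
  obtain ⟨a, b, hb, hab⟩ := IsFractionRing.div_surjective (A := 𝓞 K) x
  have hb1 : b ≠ 0 := nonZeroDivisors.ne_zero hb
  have hb0 : (b : K) ≠ 0 := by
    intro h
    exact hb1 (RingOfIntegers.ext (by rw [h]; rfl))
  have hx' : x * (b : K) = (a : K) := by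
    rw [← hab]
    exact div_mul_cancel₀ _ hb0
  have ha0 : (a : K) ≠ 0 := by
    rw [← hx']
    exact mul_ne_zero hx hb0
  have ha1 : a ≠ 0 := by
    rintro rfl
    exact ha0 rfl
  refine ⟨a * b, mul_ne_zero ha1 hb1, ?_⟩
  have h1 : ((a * b : 𝓞 K) : K) = x * ((b : K) * (b : K)) := by
    rw [← mul_assoc, hx']
    rfl
  rw [h1, H38T1.sc_mul hx (mul_ne_zero hb0 hb0),
    (H38T1.sc_eq_zero (mul_ne_zero hb0 hb0)).2 ⟨(b : K), rfl⟩, add_zero]

/-- the Frobenius element preserves the place -/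
private theorem Pc_stab {K Ω : Type} [Field K] [NumberField K] [Field Ω] [NumberField Ω]
    [Algebra K Ω] [IsGalois K Ω] {g : Ω ≃ₐ[K] Ω} {W : HeightOneSpectrum (𝓞 Ω)}
    (hfr : IsArithFrobAt (𝓞 K) g W.asIdeal) (n : ℕ) {y : 𝓞 Ω} (hy : y ∈ W.asIdeal) :
    (g ^ n) • y ∈ W.asIdeal := by
  have hq : Nat.card (𝓞 K ⧸ W.asIdeal.under (𝓞 K)) ≠ 0 := by
    have h0 : W.asIdeal.under (𝓞 K) = (dn K W).asIdeal := rfl
    rw [h0]
    exact (Ideal.absNorm_eq_zero_iff.not).2 (dn K W).ne_bot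
  have h1 : ∀ z : 𝓞 Ω, z ∈ W.asIdeal → g • z ∈ W.asIdeal := by
    intro z hz
    have h2 := hfr z
    have h3 : (MulSemiringAction.toAlgHom (𝓞 K) (𝓞 Ω) g) z = g • z := rfl
    rw [h3] at h2
    have h4 : z ^ Nat.card (𝓞 K ⧸ W.asIdeal.under (𝓞 K)) ∈ W.asIdeal :=
      Ideal.pow_mem_of_mem _ hz _ (Nat.pos_of_ne_zero hq)
    have h5 := add_mem h2 h4
    rw [sub_add_cancel] at h5
    exact h5
  induction n with
  | zero => rwa [pow_zero, one_smul]
  | succ n ih =>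
    rw [pow_succ', mul_smul]
    exact h1 _ ih

private theorem Pc_noroot {K Ω : Type} [Field K] [NumberField K] [Field Ω] [NumberField Ω]
    [Algebra K Ω] [IsGalois K Ω] {v : HeightOneSpectrum (𝓞 K)} {g : Ω ≃ₐ[K] Ω}
    {W : HeightOneSpectrum (𝓞 Ω)} (hW : W.asIdeal.LiesOver v.asIdeal)
    (hst : ∀ y : 𝓞 Ω, y ∈ W.asIdeal → g • y ∈ W.asIdeal) {a b : 𝓞 K}
    {r : Fin 3 → Ω}
    (hr : ∀ x : Ω, x ^ 3 + algebraMap K Ω (a : K) * x + algebraMap K Ω (b : K) =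
      (x - r 0) * (x - r 1) * (x - r 2))
    (hdisc : ((r 0 - r 1) * (r 0 - r 2) * (r 1 - r 2)) ^ 2 =
      algebraMap K Ω (dd3 (a : K) (b : K)))
    (hD : dd3 a b ∉ v.asIdeal) (hg : ∀ m, g (r m) ≠ r m) (T : 𝓞 Ω) (hT : g (T : Ω) = (T : Ω)) :
    T ^ 3 + algebraMap (𝓞 K) (𝓞 Ω) a * T + algebraMap (𝓞 K) (𝓞 Ω) b ∉ W.asIdeal := by
  intro ht
  have hmaxW : W.asIdeal.IsMaximal := W.isMaximal
  have hroot : ∀ m, r m ^ 3 + algebraMap K Ω (a : K) * r m + algebraMap K Ω (b : K) = 0 := by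
    intro m
    rw [hr]
    fin_cases m <;> simp
  have hint : ∀ m, IsIntegral ℤ (r m) := by
    intro m
    have h1 : IsIntegral (𝓞 K) (r m) := by
      refine ⟨Polynomial.X ^ 3 + Polynomial.C a * Polynomial.X + Polynomial.C b, ?_, ?_⟩
      · monicity!
      · have h2 := hroot m
        simp only [Polynomial.eval₂_add, Polynomial.eval₂_mul, Polynomial.eval₂_pow,
          Polynomial.eval₂_X, Polynomial.eval₂_C]
        exact h2
    exact isIntegral_trans (r m) h1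
  let ρ : Fin 3 → 𝓞 Ω := fun m => ⟨r m, hint m⟩
  have hρ : ∀ m, ((ρ m : 𝓞 Ω) : Ω) = r m := fun m => rfl
  have hle : ∀ z : 𝓞 K, z ∈ v.asIdeal ↔ algebraMap (𝓞 K) (𝓞 Ω) z ∈ W.asIdeal := by
    intro z
    rw [hW.over]
    rfl
  have hprod : (T - ρ 0) * (T - ρ 1) * (T - ρ 2) =
      T ^ 3 + algebraMap (𝓞 K) (𝓞 Ω) a * T + algebraMap (𝓞 K) (𝓞 Ω) b := by
    apply RingOfIntegers.ext
    exact (hr (T : Ω)).symm
  have hmem : (T - ρ 0) * (T - ρ 1) * (T - ρ 2) ∈ W.asIdeal := by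
    rw [hprod]
    exact ht
  obtain ⟨m, hm⟩ : ∃ m, T - ρ m ∈ W.asIdeal := by
    rcases hmaxW.isPrime.mem_or_mem hmem with h1 | h1
    · rcases hmaxW.isPrime.mem_or_mem h1 with h2 | h2
      · exact ⟨0, h2⟩
      · exact ⟨1, h2⟩
    · exact ⟨2, h1⟩
  obtain ⟨m', hm'⟩ : ∃ m', g (r m) = r m' := by
    have h1 : (g (r m) - r 0) * (g (r m) - r 1) * (g (r m) - r 2) = 0 := by
      rw [← hr]
      have h2 := congrArg g (hroot m)
      rw [map_add, map_add, map_mul, map_pow, g.commutes, g.commutes, map_zero] at h2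
      exact h2
    rcases mul_eq_zero.mp h1 with h2 | h2
    · rcases mul_eq_zero.mp h2 with h3 | h3
      · exact ⟨0, sub_eq_zero.mp h3⟩
      · exact ⟨1, sub_eq_zero.mp h3⟩
    · exact ⟨2, sub_eq_zero.mp h2⟩
  have hne : m' ≠ m := fun h => hg m (by rw [hm', h])
  have hgρ : g • ρ m = ρ m' := by
    apply RingOfIntegers.coe_injective
    exact hm'
  have hgT : g • T = T := by
    apply RingOfIntegers.coe_injective
    exact hT
  have h8 : ρ m - ρ m' ∈ W.asIdeal := by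
    have h1 := hst _ hm
    rw [smul_sub, hgT, hgρ] at h1
    have h2 := sub_mem h1 hm
    have h3 : T - ρ m' - (T - ρ m) = ρ m - ρ m' := by ring
    rw [h3] at h2
    exact h2
  have h9 : (ρ 0 - ρ 1) * (ρ 0 - ρ 2) * (ρ 1 - ρ 2) ∈ W.asIdeal := by
    have h10 : ρ m' - ρ m ∈ W.asIdeal := by
      rw [← neg_sub]
      exact neg_mem h8
    fin_cases m <;> fin_cases m' <;> first
      | exact absurd rfl hne
      | exact Ideal.mul_mem_right _ _ (Ideal.mul_mem_right _ _ h8)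
      | exact Ideal.mul_mem_right _ _ (Ideal.mul_mem_right _ _ h10)
      | exact Ideal.mul_mem_right _ _ (Ideal.mul_mem_left _ _ h8)
      | exact Ideal.mul_mem_right _ _ (Ideal.mul_mem_left _ _ h10)
      | exact Ideal.mul_mem_left _ _ h8
      | exact Ideal.mul_mem_left _ _ h10
  apply hD
  rw [hle]
  have h11 : algebraMap (𝓞 K) (𝓞 Ω) (dd3 a b) = ((ρ 0 - ρ 1) * (ρ 0 - ρ 2) * (ρ 1 - ρ 2)) ^ 2 := by
    apply RingOfIntegers.ext
    have e1 : ((((ρ 0 - ρ 1) * (ρ 0 - ρ 2) * (ρ 1 - ρ 2)) ^ 2 : 𝓞 Ω) : Ω) =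
        ((r 0 - r 1) * (r 0 - r 2) * (r 1 - r 2)) ^ 2 := rfl
    rw [e1, hdisc]
    have e2 : ((dd3 a b : 𝓞 K) : K) = dd3 (a : K) (b : K) := by
      simp only [dd3]
      push_cast
      rfl
    rw [← e2]
    rfl
  rw [h11]
  exact Ideal.pow_mem_of_mem _ h9 2 two_pos

private theorem Pc_grp {G : Type} [Group G] {S : Subgroup G} {g : G} (h3 : g ^ 3 ∈ S) (e : ℕ)
    (h2 : g ^ (2 ^ e) ∈ S) : g ∈ S := by
  induction e with
  | zero => simpa using h2
  | succ e ih =>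
    apply ih
    have h4 : (g ^ (2 ^ e)) ^ 2 ∈ S := by
      rw [← pow_mul, ← pow_succ]
      exact h2
    have h5 : (g ^ (2 ^ e)) ^ 3 ∈ S := by
      rw [← pow_mul, mul_comm, pow_mul]
      exact pow_mem h3 _
    have h6 : g ^ (2 ^ e) = (g ^ (2 ^ e)) ^ 3 * ((g ^ (2 ^ e)) ^ 2)⁻¹ := by
      rw [eq_mul_inv_iff_mul_eq, ← pow_succ']
    rw [h6]
    exact mul_mem h5 (inv_mem h4)

/-- transport of a root to the place `W` -/
private theorem Pc_conj {K k Ω : Type} [Field K] [NumberField K] [Field k] [NumberField k]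
    [Field Ω] [NumberField Ω] [Algebra K k] [Algebra K Ω] [Algebra k Ω] [IsScalarTower K k Ω]
    [IsGalois K Ω] {v : HeightOneSpectrum (𝓞 K)} {W : HeightOneSpectrum (𝓞 Ω)}
    (hW : W.asIdeal.LiesOver v.asIdeal) {u : HeightOneSpectrum (𝓞 k)} (hu : dn K u = v)
    {a b : 𝓞 K} {t : 𝓞 k}
    (ht : t ^ 3 + algebraMap (𝓞 K) (𝓞 k) a * t + algebraMap (𝓞 K) (𝓞 k) b ∈ u.asIdeal) :
    ∃ h : Ω ≃ₐ[K] Ω, ∃ T : 𝓞 Ω, (T : Ω) = h (algebraMap k Ω (t : k)) ∧
      T ^ 3 + algebraMap (𝓞 K) (𝓞 Ω) a * T + algebraMap (𝓞 K) (𝓞 Ω) b ∈ W.asIdeal := by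
  have hψ : ∀ x : 𝓞 K, algebraMap (𝓞 k) (𝓞 Ω) (algebraMap (𝓞 K) (𝓞 k) x) =
      algebraMap (𝓞 K) (𝓞 Ω) x :=
    fun x => (IsScalarTower.algebraMap_apply (𝓞 K) (𝓞 k) (𝓞 Ω) x).symm
  have hmu : u.asIdeal.IsMaximal := u.isMaximal
  obtain ⟨W', hW'm, hW'u⟩ := Ideal.exists_maximal_ideal_liesOver_of_isIntegral (S := 𝓞 Ω) u.asIdeal
  have hW'v : W'.LiesOver v.asIdeal := by
    refine ⟨?_⟩
    rw [← hu]
    ext x
    change algebraMap (𝓞 K) (𝓞 k) x ∈ u.asIdeal ↔ algebraMap (𝓞 K) (𝓞 Ω) x ∈ W'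
    rw [hW'u.over, ← hψ]
    rfl
  have hWp : W.asIdeal.IsPrime := W.isPrime
  have hW'p : W'.IsPrime := hW'm.isPrime
  obtain ⟨σ, hσ⟩ := Ideal.exists_smul_eq_of_isGaloisGroup v.asIdeal W' W.asIdeal (Ω ≃ₐ[K] Ω)
  refine ⟨σ, σ • algebraMap (𝓞 k) (𝓞 Ω) t, rfl, ?_⟩
  have h1 : algebraMap (𝓞 k) (𝓞 Ω)
      (t ^ 3 + algebraMap (𝓞 K) (𝓞 k) a * t + algebraMap (𝓞 K) (𝓞 k) b) ∈ W' := by
    have h2 := ht
    rw [hW'u.over] at h2
    exact h2
  have h2 : σ • algebraMap (𝓞 k) (𝓞 Ω)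
      (t ^ 3 + algebraMap (𝓞 K) (𝓞 k) a * t + algebraMap (𝓞 K) (𝓞 k) b) ∈ W.asIdeal := by
    rw [← hσ]
    exact Ideal.smul_mem_pointwise_smul σ _ W' h1
  have h3 : σ • algebraMap (𝓞 k) (𝓞 Ω)
      (t ^ 3 + algebraMap (𝓞 K) (𝓞 k) a * t + algebraMap (𝓞 K) (𝓞 k) b) =
      (σ • algebraMap (𝓞 k) (𝓞 Ω) t) ^ 3 +
        algebraMap (𝓞 K) (𝓞 Ω) a * (σ • algebraMap (𝓞 k) (𝓞 Ω) t) +
        algebraMap (𝓞 K) (𝓞 Ω) b := by
    rw [map_add, map_add, map_mul, map_pow, hψ, hψ, smul_add, smul_add, smul_mul', smul_pow',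
      smul_algebraMap σ a, smul_algebraMap σ b]
  rw [h3] at h2
  exact h2

theorem cheb_q0 {K N : Type} [Field K] [NumberField K] [Field N] [NumberField N]
    [Algebra K N] [IsGalois K N] {ι : Type} [Fintype ι] (a b : ι → 𝓞 K)
    (hir : ∀ (j : ι) (t : K), t ^ 3 + (a j : K) * t + (b j : K) ≠ 0)
    (hind : ∀ I : Finset ι, I.Nonempty →
      ¬ IsSquare (algebraMap K N (∏ j ∈ I, dd3 (a j : K) (b j : K))))
    (φ : SC K →+ ZMod 2) (hφ : ∀ j, φ (sc (dd3 (a j : K) (b j : K))) = 0)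
    {B : Set (SC K)} (hB : B.Finite) (X : Finset (HeightOneSpectrum (𝓞 K))) :
    ∃ q : HeightOneSpectrum (𝓞 K), q ∉ X ∧ q.valuation K 2 = 1 ∧ (∀ β ∈ B, la q β = φ β) ∧
      ∀ j, NRN K N (a j) (b j) q := by
  obtain ⟨ir, hir0, hirs⟩ : ∃ ir : SC K → 𝓞 K, (∀ β, ir β ≠ 0) ∧ ∀ β, sc (ir β : K) = β :=
    ⟨fun β => (Pc_irep β).choose, fun β => (Pc_irep β).choose_spec.1,
      fun β => (Pc_irep β).choose_spec.2⟩
  obtain ⟨D, hDdef⟩ : ∃ D : Finset (𝓞 K), D = hB.toFinset.image ir := ⟨_, rfl⟩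
  have hD : ∀ d ∈ D, d ≠ 0 := by
    intro d hd
    rw [hDdef, Finset.mem_image] at hd
    obtain ⟨β, -, rfl⟩ := hd
    exact hir0 β
  obtain ⟨Ω, _, _, _, _, _, _, s, r, τ, hs, hr, ⟨e, hτN⟩, hτs, hτr⟩ :=
    exists_tau2 a b hir hind D hD φ hφ
  have hdne : ∀ j, dd3 (a j) (b j) ≠ 0 := by
    intro j h0
    apply hind {j} (Finset.singleton_nonempty j)
    rw [Finset.prod_singleton]
    have e2 : ((dd3 (a j) (b j) : 𝓞 K) : K) = dd3 (a j : K) (b j : K) := by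
      simp only [dd3]
      push_cast
      rfl
    rw [← e2, h0]
    refine ⟨0, ?_⟩
    rw [mul_zero]
    exact map_zero _
  have hbad : ((((X : Set (HeightOneSpectrum (𝓞 K))) ∪
      {v : HeightOneSpectrum (𝓞 K) | (2 : 𝓞 K) ∈ v.asIdeal}) ∪
      ⋃ d ∈ D, {v : HeightOneSpectrum (𝓞 K) | d ∈ v.asIdeal}) ∪
      ⋃ j, {v : HeightOneSpectrum (𝓞 K) | dd3 (a j) (b j) ∈ v.asIdeal}).Finite :=
    ((X.finite_toSet.union (H30MQ.fin_mem two_ne_zero)).union
      (Set.Finite.biUnion D.finite_toSet fun d hd => H30MQ.fin_mem (hD d hd))).union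
      (Set.finite_iUnion fun j => H30MQ.fin_mem (hdne j))
  obtain ⟨v, ⟨g, hg, W, hW, hfr⟩, hv⟩ := ((H30MQ.frob_infK τ).sdiff hbad).nonempty
  have h2v : (2 : 𝓞 K) ∉ v.asIdeal := fun h => hv (Or.inl (Or.inl (Or.inr h)))
  refine ⟨v, fun h => hv (Or.inl (Or.inl (Or.inl h))), ?_, fun β hβ => ?_, fun j => ?_⟩
  · have h3 : v.valuation K ((2 : 𝓞 K) : K) = 1 := v.valuation_eq_one_iff_notMem.mpr h2v
    have h4 : ((2 : 𝓞 K) : K) = 2 := map_ofNat _ 2
    rw [h4] at h3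
    exact h3
  · have hd : ir β ∈ D := by
      rw [hDdef]
      exact Finset.mem_image_of_mem _ (hB.mem_toFinset.2 hβ)
    have hdv : ir β ∉ v.asIdeal := fun h => hv (Or.inl (Or.inr (Set.mem_biUnion hd h)))
    have h3 := H30MQ.same_sign (g := g) (σ := τ) hg (s := s (ir β)) (hτs _ hd)
    have h4 := H30MQ.la_of_frob ⟨W, hW, hfr⟩ h2v hdv (hs _ hd) h3
    rw [hirs] at h4
    exact h4
  · intro k _ _ _ _ _ u hu t ht
    let _ : Algebra k Ω := ((algebraMap N Ω).comp (algebraMap k N)).toAlgebra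
    have hkΩ : ∀ x : k, algebraMap k Ω x = algebraMap N Ω (algebraMap k N x) := fun x => rfl
    have : IsScalarTower K k Ω := IsScalarTower.of_algebraMap_eq fun x => by
      rw [hkΩ, ← IsScalarTower.algebraMap_apply K k N, ← IsScalarTower.algebraMap_apply K N Ω]
    obtain ⟨h, T, hT, hTW⟩ := Pc_conj hW hu ht
    have hbig : Big K Ω (fun j => (a j : K)) (fun j => (b j : K)) r := ⟨inferInstance, hr⟩
    have hdneK : dd3 (a j : K) (b j : K) ≠ 0 := by
      intro h0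
      apply hdne j
      apply RingOfIntegers.ext
      have e2 : ((dd3 (a j) (b j) : 𝓞 K) : K) = dd3 (a j : K) (b j : K) := by
        simp only [dd3]
        push_cast
        rfl
      rw [e2, h0]
      rfl
    have hgr : ∀ m, g (r j m) ≠ r j m := by
      intro m hm
      apply hτr j m
      have h3 := H30MQ.same_sign (g := τ) (σ := g) hg.symm (s := r j m) (e := 0)
        (by rw [if_pos rfl]; exact hm)
      rw [if_pos rfl] at h3
      exact h3
    have hcube := hbig.cube (k := j) hdneK hgr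
    have hGr : ∀ m, (g ^ (2 ^ e)) (r j m) ≠ r j m := by
      intro m hm
      apply hgr m
      have h3 : g ^ 3 ∈ MulAction.stabilizer (Ω ≃ₐ[K] Ω) (r j m) := by
        rw [MulAction.mem_stabilizer_iff]
        exact hcube m
      have h4 : g ^ (2 ^ e) ∈ MulAction.stabilizer (Ω ≃ₐ[K] Ω) (r j m) := by
        rw [MulAction.mem_stabilizer_iff]
        exact hm
      have h5 := Pc_grp h3 e h4
      rw [MulAction.mem_stabilizer_iff] at h5
      exact h5
    have hGN : ∀ x : N, (g ^ (2 ^ e)) (algebraMap N Ω x) = algebraMap N Ω x := by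
      intro x
      have h3 : g ∈ Subgroup.zpowers τ := by
        rw [← hg]
        exact Subgroup.mem_zpowers _
      obtain ⟨n, rfl⟩ := Subgroup.mem_zpowers_iff.1 h3
      have h4 : (τ ^ n) ^ (2 ^ e) = (τ ^ (2 ^ e)) ^ n := by
        rw [← zpow_natCast, ← zpow_mul, mul_comm, zpow_mul, zpow_natCast]
      have h5 : τ ^ (2 ^ e) ∈ MulAction.stabilizer (Ω ≃ₐ[K] Ω) (algebraMap N Ω x) := by
        rw [MulAction.mem_stabilizer_iff]
        exact hτN x
      have h6 := zpow_mem h5 n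
      rw [← h4, MulAction.mem_stabilizer_iff] at h6
      exact h6
    have hGT : (g ^ (2 ^ e)) (T : Ω) = (T : Ω) := by
      rw [hT, hkΩ, ← AlgEquiv.restrictNormal_commutes h N]
      exact hGN _
    exact Pc_noroot hW (fun y hy => Pc_stab hfr _ hy) (hr j) (hbig.disc j)
      (fun h => hv (Or.inr (Set.mem_iUnion.mpr ⟨j, h⟩))) hGr T hGT hTW

end H88PL
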