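import Pool.Agent.H88.PL.Pa
import Pool.Agent.H88.PL.Pc
import Pool.Agent.H26.OD.Jf
import Pool.Agent.H88.RE.Ib

/-!
Project MP_78d38b_OD: elements which are negative at exactly one real place.
-/

set_option autoImplicit false
set_option linter.unusedSectionVars false
open scoped Classical

open WithZero NumberField IsDedekindDomain H38RT
open H38T1 (SC sc scu rep eo la si OddP)
open H76PP (Cub LC ev scm dn)
open H88OD
open H26OD (Zs dd3)

namespace H88PL

private theorem pe_sw {K : Type} [Field K] [NumberField K] (s : K →+* ℝ) {x : K} (hx : x ≠ 0) :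
    (si s (sc x) = 0 → 0 < s x) ∧ (si s (sc x) = 1 → s x < 0) := by
  rw [H38T1.si_sc s hx]
  unfold H38RT.sw
  have h0 : s x ≠ 0 := (map_ne_zero s).2 hx
  constructor
  · intro h
    by_contra hcon
    rw [if_pos (lt_of_le_of_ne (not_lt.1 hcon) h0)] at h
    exact one_ne_zero h
  · intro h
    by_contra hcon
    rw [if_neg hcon] at h
    exact zero_ne_one h

theorem exists_sign {K N : Type} [Field K] [NumberField K] [Field N] [NumberField N]
    [Algebra K N] [IsGalois K N] {ι : Type} [Fintype ι] (a b : ι → 𝓞 K)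
    (hir : ∀ (j : ι) (t : K), t ^ 3 + (a j : K) * t + (b j : K) ≠ 0)
    (hind : ∀ I : Finset ι, I.Nonempty →
      ¬ IsSquare (algebraMap K N (∏ j ∈ I, dd3 (a j : K) (b j : K))))
    (s0 : K →+* ℝ) (Sg : Finset (HeightOneSpectrum (𝓞 K))) :
    ∃ δ : K, δ ≠ 0 ∧ (∀ u ∈ Sg, IsSquare (algebraMap K (u.adicCompletion K) δ)) ∧ s0 δ < 0 ∧
      (∀ s : K →+* ℝ, s ≠ s0 → 0 < s δ) ∧
      ∀ u : HeightOneSpectrum (𝓞 K), u ∈ Zs K N ∨
        (u.valuation K 2 = 1 ∧ ∀ j, NRN K N (a j) (b j) u) ∨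
        IsSquare (algebraMap K (u.adicCompletion K) δ) ∨ u.valuation K δ = 1 := by
  have hdne : ∀ j, dd3 (a j : K) (b j : K) ≠ 0 := by
    intro j h
    apply hind {j} (Finset.singleton_nonempty j)
    rw [Finset.prod_singleton, h, map_zero]
    exact ⟨0, (mul_zero 0).symm⟩
  -- a finite set of primes
  have f2 := H38RT.fin_bad (K := K) (x := 2) two_ne_zero
  obtain ⟨Sg1, h01, hcl⟩ := exists_cl (K := K) (Sg ∪ f2.toFinset)
  have h2 : ∀ v : HeightOneSpectrum (𝓞 K), v ∉ Sg1 → v.valuation K 2 = 1 := by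
    intro v hv
    by_contra hcon
    apply hv
    apply h01
    refine Finset.mem_union_right _ ?_
    rw [Set.Finite.mem_toFinset]
    exact hcon
  have hB : (H24TD.US K (Sg1 : Set (HeightOneSpectrum (𝓞 K))) : Set (SC K)).Finite := by
    have : Finite (H24TD.US K (Sg1 : Set (HeightOneSpectrum (𝓞 K)))) :=
      Nat.finite_of_card_ne_zero (by
        rw [H88T7.card_US7 Sg1.finite_toSet]
        positivity)
    exact Set.toFinite _
  -- the functionals
  have htwo : ∀ x : SC N, x + x = 0 := by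
    intro x
    have h := H38T1.SC.two_smul x
    rwa [two_nsmul] at h
  have hdN : ∀ j, algebraMap K N (dd3 (a j : K) (b j : K)) ≠ 0 := fun j =>
    (map_ne_zero _).2 (hdne j)
  obtain ⟨χN, hχN⟩ := H26OD.exists_chi htwo
    (fun j => sc (algebraMap K N (dd3 (a j : K) (b j : K)))) (by
      intro I hI h
      rw [← H26OD.sc_prod I _ hdN, ← map_prod] at h
      exact hind I hI ((H38T1.sc_eq_zero ((map_ne_zero _).2
        (Finset.prod_ne_zero_iff.2 fun j _ => hdne j))).1 h))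
    (fun j => si s0 (sc (dd3 (a j : K) (b j : K))))
  obtain ⟨χ1, hχ1⟩ : ∃ χ1 : SC K →+ ZMod 2,
      ∀ β, χ1 β = χN (scm (algebraMap K N : K →* N) β) :=
    ⟨χN.comp (scm (algebraMap K N : K →* N)), fun β => rfl⟩
  obtain ⟨φ, hφ⟩ : ∃ φ : SC K →+ ZMod 2, ∀ β, φ β = si s0 β + χ1 β :=
    ⟨AddMonoidHom.mk' (si s0) (H38T1.si_add s0) + χ1, fun β => rfl⟩
  have hφd : ∀ j, φ (sc (dd3 (a j : K) (b j : K))) = 0 := by
    intro j
    rw [hφ, hχ1, H76PP.scm_sc _ (hdne j)]
    have h := hχN j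
    change χN (sc (algebraMap K N (dd3 (a j : K) (b j : K)))) = _ at h
    rw [MonoidHom.coe_coe, h]
    exact CharTwo.add_self_eq_zero _
  obtain ⟨q1, hq1X, hq1Z, -, hq1⟩ := exists_zs χN hB Sg1
  obtain ⟨q0, hq0X, hq02, hq0, hq0N⟩ := cheb_q0 (N := N) a b hir hind φ hφd hB (insert q1 Sg1)
  have hne : q1 ≠ q0 := fun h => hq0X (Finset.mem_insert.2 (Or.inl h.symm))
  have hq0S : q0 ∉ Sg1 := fun h => hq0X (Finset.mem_insert_of_mem h)
  obtain ⟨δ, hδ0, -, hδo, hδs, hδr⟩ := exists_delta h2 (hcl Sg1 le_rfl) {q1, q0} (by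
    intro q hq
    rw [Finset.mem_insert, Finset.mem_singleton] at hq
    rcases hq with rfl | rfl
    · exact hq1X
    · exact hq0S) (fun s => if s = s0 then 1 else 0) (by
    intro β hβ
    rw [Finset.sum_pair hne, hq1 β hβ, hq0 β hβ, hφ, hχ1]
    simp only [ite_mul, one_mul, zero_mul, Finset.sum_ite_eq', Finset.mem_univ, if_true]
    rw [add_left_comm, CharTwo.add_self_eq_zero, add_zero])
  refine ⟨δ, hδ0, fun u hu => hδs u (h01 (Finset.mem_union_left _ hu)), ?_, fun s hs => ?_,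
    fun u => ?_⟩
  · have h := hδr s0
    rw [if_pos rfl] at h
    exact (pe_sw s0 hδ0).2 h
  · have h := hδr s
    rw [if_neg hs] at h
    exact (pe_sw s hδ0).1 h
  · by_cases hu1 : u = q1
    · rw [hu1]
      exact Or.inl hq1Z
    by_cases hu0 : u = q0
    · rw [hu0]
      exact Or.inr (Or.inl ⟨hq02, hq0N⟩)
    by_cases hu : u ∈ Sg1
    · exact Or.inr (Or.inr (Or.inl (hδs u hu)))
    · refine Or.inr (Or.inr (Or.inr (hδo u ?_ hu)))
      rw [Finset.mem_insert, Finset.mem_singleton, not_or]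
      exact ⟨hu1, hu0⟩

end H88PL
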