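import Pool.Agent.H26.OD.Nd

/-!
ROW Pa (project MP_78d38b_OD, about 120 lines): primes of `K` which split completely in `N` with prescribed quadratic residue
symbols.

PROOF. As in `rich_N` (Pool/Agent/H26/OD/Nd.lean; copy the private lemmas): `H76OD.cheb_N (K := K) D hD0 χN _ hbad` with
the number field `N` itself (in the place of `L N`), `D` = the images in `𝓞 N` of integral representatives (`H76OD.exists_irep`)
of the classes in `B`; the bad set contains `X`, the primes below `g • X g - X g` (`g ≠ 1`, see hmove). The place `T` of `N` is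
of degree one over `K`; `q := dn K T`. `q ∈ Zs K N` as in rich_N; `la q β = la T (scm β)` by `Nd_la` (equal symbols at a place
of degree one).
-/

set_option autoImplicit false
set_option linter.unusedSectionVars false
open scoped Classical

open WithZero NumberField IsDedekindDomain H38RT
open H38T1 (SC sc scu rep eo la si OddP)
open H76PP (Cub LC ev scm dn)
open H88OD
open H26OD (Zs)

namespace H88PL

private theorem Pa_two (x : ZMod 2) : x = 0 ∨ x = 1 := by
  revert x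
  decide

private theorem Pa_odd {M : Type} [Field M] [NumberField M] {w : HeightOneSpectrum (𝓞 M)}
    (hw2 : (2 : 𝓞 M) ∉ w.asIdeal) : OddP w := by
  have h3 : w.valuation M ((2 : 𝓞 M) : M) = 1 := w.valuation_eq_one_iff_notMem.mpr hw2
  have h4 : ((2 : 𝓞 M) : M) = 2 := map_ofNat _ 2
  rw [h4] at h3
  exact h3

/-- Equal symbols at a place of degree one. -/
private theorem Pa_la {K N : Type} [Field K] [NumberField K] [Field N] [NumberField N] [Algebra K N]
    {T : HeightOneSpectrum (𝓞 N)} (hT2 : (2 : 𝓞 N) ∉ T.asIdeal)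
    (hw2 : (2 : 𝓞 K) ∉ (dn K T).asIdeal)
    (hdeg : ∀ x : 𝓞 N, ∃ n : 𝓞 K, algebraMap (𝓞 K) (𝓞 N) n - x ∈ T.asIdeal) {d : 𝓞 K}
    (hd : algebraMap (𝓞 K) (𝓞 N) d ∉ T.asIdeal) :
    la (dn K T) (sc (d : K)) = la T (sc ((algebraMap (𝓞 K) (𝓞 N) d : 𝓞 N) : N)) := by
  have hdw : d ∉ (dn K T).asIdeal := hd
  have h1 := H30MQ.la_iff (Pa_odd hw2) hdw
  have h2 := H30MQ.la_iff (Pa_odd hT2) hd
  have h3 : la (dn K T) (sc (d : K)) = 0 ↔
      la T (sc ((algebraMap (𝓞 K) (𝓞 N) d : 𝓞 N) : N)) = 0 := by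
    rw [h1, h2]
    constructor
    · rintro ⟨y, hy⟩
      refine ⟨algebraMap (𝓞 K) (𝓞 N) y, ?_⟩
      rw [← map_pow, ← map_sub]
      exact hy
    · rintro ⟨y, hy⟩
      obtain ⟨n, hn⟩ := hdeg y
      refine ⟨n, ?_⟩
      change algebraMap (𝓞 K) (𝓞 N) (d - n ^ 2) ∈ T.asIdeal
      rw [map_sub, map_pow]
      have e : algebraMap (𝓞 K) (𝓞 N) d - algebraMap (𝓞 K) (𝓞 N) n ^ 2 =
          (algebraMap (𝓞 K) (𝓞 N) d - y ^ 2) -
            (algebraMap (𝓞 K) (𝓞 N) n - y) * (algebraMap (𝓞 K) (𝓞 N) n + y) := by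
        ring
      rw [e]
      exact T.asIdeal.sub_mem hy (T.asIdeal.mul_mem_right _ hn)
  rcases Pa_two (la (dn K T) (sc (d : K))) with h4 | h4
  · rw [h4, h3.1 h4]
  · rcases Pa_two (la T (sc ((algebraMap (𝓞 K) (𝓞 N) d : 𝓞 N) : N))) with h5 | h5
    · rw [h3.2 h5] at h4
      exact absurd h4.symm one_ne_zero
    · rw [h4, h5]

/-- Places above the same place are conjugate. -/
private theorem Pa_conj {K N : Type} [Field K] [NumberField K] [Field N] [NumberField N]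
    [Algebra K N] [IsGalois K N]
    {W W' : HeightOneSpectrum (𝓞 N)} (h : dn K W' = dn K W) :
    ∃ g : N ≃ₐ[K] N, ∀ x : 𝓞 N, x ∈ W'.asIdeal ↔ g • x ∈ W.asIdeal := by
  have hp : (dn K W).asIdeal = W.asIdeal.comap (algebraMap (𝓞 K) (𝓞 N)) := rfl
  have hp' : (dn K W).asIdeal = W'.asIdeal.comap (algebraMap (𝓞 K) (𝓞 N)) := by
    rw [← h]
    rfl
  have i1 : W.asIdeal.IsPrime := W.isPrime
  have i2 : W'.asIdeal.IsPrime := W'.isPrime
  have i3 : W.asIdeal.LiesOver (dn K W).asIdeal := ⟨hp⟩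
  have i4 : W'.asIdeal.LiesOver (dn K W).asIdeal := ⟨hp'⟩
  obtain ⟨g, hg⟩ := Ideal.exists_smul_eq_of_isGaloisGroup (dn K W).asIdeal W'.asIdeal W.asIdeal
    (N ≃ₐ[K] N)
  refine ⟨g, fun x => ?_⟩
  rw [← hg]
  exact Ideal.smul_mem_pointwise_smul_iff.symm

theorem exists_zs {K N : Type} [Field K] [NumberField K] [Field N] [NumberField N] [Algebra K N]
    [IsGalois K N] (χN : SC N →+ ZMod 2) {B : Set (SC K)} (hB : B.Finite)
    (X : Finset (HeightOneSpectrum (𝓞 K))) :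
    ∃ q : HeightOneSpectrum (𝓞 K), q ∉ X ∧ q ∈ Zs K N ∧ q.valuation K 2 = 1 ∧
      ∀ β ∈ B, la q β = χN (scm (algebraMap K N : K →* N) β) := by
  choose r hr0 hr1 using (fun c : SC K => H76OD.exists_irep c)
  have hinj : Function.Injective (algebraMap (𝓞 K) (𝓞 N)) := by
    intro x y hxy
    apply RingOfIntegers.coe_injective
    apply (algebraMap K N).injective
    exact congrArg (fun z : 𝓞 N => (z : N)) hxy
  obtain ⟨D, hD⟩ : ∃ D : Finset (𝓞 N), D =
      hB.toFinset.image fun c => algebraMap (𝓞 K) (𝓞 N) (r c) := ⟨_, rfl⟩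
  have hD0 : ∀ d ∈ D, d ≠ 0 := by
    intro d hd
    rw [hD, Finset.mem_image] at hd
    obtain ⟨c, -, rfl⟩ := hd
    intro h
    apply hr0 c
    apply hinj
    rw [h, map_zero]
  have hmove : ∀ g : N ≃ₐ[K] N, g ≠ 1 → ∃ x : 𝓞 N, g • x - x ≠ 0 := by
    intro g hg
    by_contra hcon
    push Not at hcon
    apply hg
    apply AlgEquiv.ext
    intro y
    obtain ⟨α, β, -, hxy⟩ := IsFractionRing.div_surjective (A := 𝓞 N) y
    have h1 : ∀ z : 𝓞 N, g (z : N) = (z : N) := by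
      intro z
      have h2 := sub_eq_zero.1 (hcon z)
      have h3 := congrArg (fun t : 𝓞 N => (t : N)) h2
      exact h3
    change g y = y
    rw [← hxy, map_div₀]
    exact congrArg₂ (· / ·) (h1 α) (h1 β)
  choose! Y hY using hmove
  have hfinK : ∀ x : 𝓞 N, x ≠ 0 → {v : HeightOneSpectrum (𝓞 K) |
      ∃ w : HeightOneSpectrum (𝓞 N), dn K w = v ∧ x ∈ w.asIdeal}.Finite := by
    intro x hx
    refine ((H30MQ.fin_mem hx).image (dn K)).subset ?_
    rintro v ⟨w, rfl, hw⟩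
    exact ⟨w, hw, rfl⟩
  have hbad : ((X : Set (HeightOneSpectrum (𝓞 K))) ∪
      ⋃ g : {g : N ≃ₐ[K] N // g ≠ 1}, {v : HeightOneSpectrum (𝓞 K) |
        ∃ w : HeightOneSpectrum (𝓞 N), dn K w = v ∧ g.1 • Y g.1 - Y g.1 ∈ w.asIdeal}).Finite := by
    refine X.finite_toSet.union ?_
    exact Set.finite_iUnion fun g => hfinK _ (hY g.1 g.2)
  obtain ⟨T, hTB, hT2, hdeg, hla⟩ := H76OD.cheb_N (K := K) D hD0 χN _ hbad
  have hw2 : (2 : 𝓞 K) ∉ (dn K T).asIdeal := by
    intro h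
    apply hT2
    have h1 : algebraMap (𝓞 K) (𝓞 N) 2 ∈ T.asIdeal := h
    rwa [map_ofNat] at h1
  refine ⟨dn K T, fun h => hTB (Or.inl h), ?_, Pa_odd hw2, fun β hβ => ?_⟩
  · intro W hW g hg
    obtain ⟨k, hk⟩ := Pa_conj hW
    have hgW : ∀ x : 𝓞 N, x ∈ W.asIdeal ↔ g⁻¹ • x ∈ W.asIdeal := by
      intro x
      have h1 : x ∈ (gq g • W).asIdeal ↔ H38T1.gO (gq g)⁻¹ x ∈ W.asIdeal := Iff.rfl
      rw [hg] at h1
      have h2 : H38T1.gO (gq g)⁻¹ x = g⁻¹ • x := by
        apply RingOfIntegers.coe_injective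
        rfl
      rw [h2] at h1
      exact h1
    have hst : ∀ y : 𝓞 N, y ∈ T.asIdeal ↔ (k * g⁻¹ * k⁻¹) • y ∈ T.asIdeal := by
      intro y
      have h1 := hk (k⁻¹ • y)
      rw [smul_inv_smul] at h1
      rw [← h1, hgW, hk, smul_smul, smul_smul]
    have hkk : k * g⁻¹ * k⁻¹ = 1 := by
      by_contra hne
      obtain ⟨s, hs⟩ : ∃ s : N ≃ₐ[K] N, s = k * g⁻¹ * k⁻¹ := ⟨_, rfl⟩
      rw [← hs] at hne hst
      obtain ⟨m, hm1⟩ := hdeg (Y s)
      have hm2 := (hst _).1 hm1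
      have h5 : s • algebraMap (𝓞 K) (𝓞 N) m = algebraMap (𝓞 K) (𝓞 N) m := by
        apply RingOfIntegers.coe_injective
        exact s.commutes (m : K)
      rw [smul_sub, h5] at hm2
      have h6 : s • Y s - Y s ∈ T.asIdeal := by
        have h7 : s • Y s - Y s = (algebraMap (𝓞 K) (𝓞 N) m - Y s) -
            (algebraMap (𝓞 K) (𝓞 N) m - s • Y s) := by
          ring
        rw [h7]
        exact T.asIdeal.sub_mem hm1 hm2
      apply hTB
      right
      exact Set.mem_iUnion.2 ⟨⟨s, hne⟩, T, rfl, h6⟩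
    have h8 : g⁻¹ = 1 := by
      have h9 : g⁻¹ = k⁻¹ * (k * g⁻¹ * k⁻¹) * k := by group
      rw [h9, hkk]
      group
    exact inv_eq_one.1 h8
  · have h3 : algebraMap (𝓞 K) (𝓞 N) (r β) ∈ D := by
      rw [hD, Finset.mem_image]
      exact ⟨β, hB.mem_toFinset.2 hβ, rfl⟩
    obtain ⟨h4, h5⟩ := hla _ h3
    have hx0 : (r β : K) ≠ 0 := by
      intro h
      apply hr0 β
      apply RingOfIntegers.coe_injective
      exact h.trans (map_zero _).symm
    have h6 : sc ((algebraMap (𝓞 K) (𝓞 N) (r β) : 𝓞 N) : N) =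
        scm (algebraMap K N : K →* N) (sc (r β : K)) := by
      rw [H76PP.scm_sc _ hx0]
      rfl
    have h7 := Pa_la hT2 hw2 hdeg h4
    rw [h5, h6, hr1] at h7
    exact h7

end H88PL
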